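import Pool.Agent.U507.GM.VC
import Pool.Agent.U507.GM.VD
import Pool.Agent.U507.GM.VE
import Pool.Agent.U507.GM.VH
import Pool.Agent.U507.GM.VI

/-!
# The lower bound for the variance of primes in short intervals, in the mean over the exponent

`v(T, α)` is the mean of `|ψ(x; H) - H|²` over `X ≤ x ≤ 2X`, divided by `H log (X / H)`, for `X = T^α` and
`H = X / T`; so `T = X / H`, and the conjecture of the problem says (to first order) that `v(T, α) → 1` as
`T → ∞`, uniformly for `α` in compact subsets of `(1, ∞)`; for `α ≤ 1` it is `α + o(1)`.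

All bounds are unconditional.

1. For `0 < c ≤ 1` the Laplace mean `∫_0^B e^{-cα} v(T, α) dα` is at least `1/c - 1/2 - ε` for all large `T`, if
`B` is large enough in terms of `c` and `ε`; the conjecture predicts `(1 - e^{-c}) / c² < 1/c - 1/2 + c/6`.
2. On the other side it is bounded (along one sequence `T → ∞`, for one `c`) if and only if the Riemann hypothesis
is true.
3. For all `A` and `ε > 0` there is `R` such that for EVERY large `T` there is `b` in `[A, R]` for which the lower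
bound of the conjecture holds in the mean over `[0, b]`, up to `ε`.
4. The same for the mean over `[A, b]`, up to the factor `1 - ε`.
5. For all `A` and `ε > 0` there is `R` such that for every large `T` there is `X` in `[T^A, T^R]` for which the
lower bound of the conjecture, up to the factor `1 - ε`, is true for `X` and `H = X / T`.
-/

set_option autoImplicit false

open MeasureTheory Filter Topology Set

namespace Pool.Agent.Results.MP_2a816b_nt.LaplaceMean

/-- `ψ(x; H)`, the weighted number of prime powers in the interval of length `H` centred at `x`. -/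
noncomputable def psi (x H : ℝ) : ℝ :=
  ∑ᶠ n ∈ {n : ℕ | 1 ≤ n ∧ x - H / 2 ≤ n ∧ (n : ℝ) ≤ x + H / 2}, ArithmeticFunction.vonMangoldt n

/-- the mean of `|ψ(x; H) - H|²` over `X ≤ x ≤ 2 X` -/
noncomputable def Var (X H : ℝ) : ℝ := 1 / X * ∫ x in X..(2 * X), |psi x H - H| ^ 2

/-- the mean square divided by `H log (X / H)`, for `X = T ^ α` and `H = X / T` -/
noncomputable def v (T α : ℝ) : ℝ := Var (T ^ α) (T ^ α / T) / (T ^ α / T * Real.log T)

open Pool.Agent.U507.GM

lemma v_eq : v = vv := rfl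

lemma reg {T : ℝ} (hT : 16 ≤ T) : Measurable (v T) ∧ (∀ α, 0 ≤ v T α) ∧ LI (v T) := by
  rw [v_eq]
  exact ⟨vv_meas (by linarith), vv_nonneg (by linarith), fun a b ha hb => vv_ii hT ha hb⟩

lemma exp_ii {T c : ℝ} (hT : 16 ≤ T) {a b : ℝ} (ha : 0 ≤ a) (hb : 0 ≤ b) :
    IntervalIntegrable (fun α => Real.exp (-c * α) * v T α) volume a b :=
  ((reg hT).2.2 a b ha hb).continuousOn_mul (by fun_prop)

/-- without the Riemann hypothesis the means are large -/
lemma large (hRH : ¬ RiemannHypothesis) (A : ℝ) : ∃ a T1 : ℝ, 1 ≤ a ∧ A ≤ a ∧ 16 ≤ T1 ∧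
    ∀ T α : ℝ, T1 ≤ T → a ≤ α → α ≤ a + 1 → √T ≤ v T α := by
  rw [Pool.Agent.W190.rh_free] at hRH
  push Not at hRH
  obtain ⟨s, hs1, hs0⟩ := hRH
  obtain ⟨θ, hθ⟩ : ∃ θ : ℝ, θ = (1 / 2 + s.re) / 2 := ⟨_, rfl⟩
  have hθ1 : 1 / 2 < θ := by rw [hθ]; linarith
  have hθ2 : θ < s.re := by rw [hθ]; linarith
  obtain ⟨a, ha⟩ : ∃ a : ℝ, a = max (max 1 A) (2 / (2 * θ - 1)) := ⟨_, rfl⟩
  have ha1 : 1 ≤ a := by rw [ha]; exact (le_max_left _ _).trans (le_max_left _ _)
  have ha2 : A ≤ a := by rw [ha]; exact (le_max_right _ _).trans (le_max_left _ _)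
  obtain ⟨T1, hT1, h⟩ := vv_large (A := a + 1) hθ1 ⟨s, hs0, hθ2⟩ (by linarith)
  refine ⟨a, T1, ha1, ha2, hT1, fun T α hT hα hα1 => ?_⟩
  exact h T α hT (by linarith) ((by rw [ha]; exact le_max_right _ _ : 2 / (2 * θ - 1) ≤ a).trans hα) hα1

/-- the tail of the Laplace integral -/
lemma tail_le {T c C B : ℝ} (hT : 16 ≤ T) (hc : 0 < c) (hB : 0 ≤ B)
    (h1 : IntegrableOn (fun α => Real.exp (-c * α) * v T α) (Ioi 0))
    (h2 : IntegrableOn (fun α => Real.exp (-(c / 2) * α) * v T α) (Ioi 0))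
    (h3 : ∫ α in Ioi 0, Real.exp (-(c / 2) * α) * v T α ≤ C) :
    (∫ α in Ioi 0, Real.exp (-c * α) * v T α) - C * Real.exp (-(c / 2) * B) ≤
      ∫ α in (0 : ℝ)..B, Real.exp (-c * α) * v T α := by
  have h0 := (reg hT).2.1
  have hsplit : ∫ α in Ioi 0, Real.exp (-c * α) * v T α =
      (∫ α in Ioc 0 B, Real.exp (-c * α) * v T α) + ∫ α in Ioi B, Real.exp (-c * α) * v T α := by
    rw [← setIntegral_union Ioc_disjoint_Ioi_same measurableSet_Ioi (h1.mono_set Ioc_subset_Ioi_self)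
      (h1.mono_set (Ioi_subset_Ioi hB)), Ioc_union_Ioi_eq_Ioi hB]
  have htail : ∫ α in Ioi B, Real.exp (-c * α) * v T α ≤ Real.exp (-(c / 2) * B) * C := by
    calc ∫ α in Ioi B, Real.exp (-c * α) * v T α ≤
          ∫ α in Ioi B, Real.exp (-(c / 2) * B) * (Real.exp (-(c / 2) * α) * v T α) := by
          refine setIntegral_mono_on (h1.mono_set (Ioi_subset_Ioi hB))
            ((h2.mono_set (Ioi_subset_Ioi hB)).const_mul _) measurableSet_Ioi fun α hα => ?_
          rw [← mul_assoc, ← Real.exp_add]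
          refine mul_le_mul_of_nonneg_right (Real.exp_le_exp.2 ?_) (h0 α)
          have : B < α := hα
          nlinarith
      _ = Real.exp (-(c / 2) * B) * ∫ α in Ioi B, Real.exp (-(c / 2) * α) * v T α := integral_const_mul _ _
      _ ≤ Real.exp (-(c / 2) * B) * C := by
          refine mul_le_mul_of_nonneg_left (le_trans ?_ h3) (Real.exp_pos _).le
          exact setIntegral_mono_set h2 (Filter.Eventually.of_forall fun α => mul_nonneg (Real.exp_pos _).le (h0 α))
            (Ioi_subset_Ioi hB).eventuallyLE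
  rw [intervalIntegral.integral_of_le hB]
  linarith

/-- the lower bound, unconditionally, for a truncated integral -/
theorem lower {c : ℝ} (hc : 0 < c) (hc1 : c ≤ 1) {ε : ℝ} (hε : 0 < ε) : ∃ B T0 : ℝ, 0 < B ∧ ∀ T : ℝ, T0 ≤ T →
    1 / c - 1 / 2 - ε ≤ ∫ α in (0 : ℝ)..B, Real.exp (-c * α) * v T α := by
  by_cases hRH : RiemannHypothesis
  · obtain ⟨⟨C1, T1, -, hT1, h1⟩, hlow⟩ := lap hRH hc hc1
    obtain ⟨T2, hT2, h2⟩ := hlow (ε / 2) (by linarith)
    obtain ⟨⟨C, T3, hC, hT3, h3⟩, -⟩ := lap hRH (c := c / 2) (by linarith) (by linarith)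
    refine ⟨2 / c * (2 * C / ε), max T1 (max T2 T3), by positivity, fun T hT => ?_⟩
    have hTT1 : T1 ≤ T := (le_max_left _ _).trans hT
    have hTT2 : T2 ≤ T := ((le_max_left _ _).trans (le_max_right _ _)).trans hT
    have hTT3 : T3 ≤ T := ((le_max_right _ _).trans (le_max_right _ _)).trans hT
    have k1 := h2 T hTT2
    obtain ⟨k2, k3⟩ := h3 T hTT3
    have k4 := tail_le (B := 2 / c * (2 * C / ε)) (hT1.trans hTT1) hc (by positivity) (h1 T hTT1).1 k2 k3
    have k5 : C * Real.exp (-(c / 2) * (2 / c * (2 * C / ε))) ≤ ε / 2 := by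
      have e1 : -(c / 2) * (2 / c * (2 * C / ε)) = -(2 * C / ε) := by field_simp
      rw [e1, Real.exp_neg]
      have k6 : 2 * C / ε ≤ Real.exp (2 * C / ε) := by
        have := Real.add_one_le_exp (2 * C / ε)
        linarith
      have k7 : 0 < 2 * C / ε := by positivity
      calc C * (Real.exp (2 * C / ε))⁻¹ ≤ C * (2 * C / ε)⁻¹ := by gcongr
        _ = ε / 2 := by field_simp
    change _ ≤ ∫ α in Ioi 0, Real.exp (-c * α) * v T α at k1
    linarith
  · obtain ⟨a, T1, ha, -, hT1, h⟩ := large hRH 0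
    refine ⟨a + 1, max T1 ((Real.exp (c * (a + 1)) / c) ^ 2), by linarith, fun T hT => ?_⟩
    have hTT1 : T1 ≤ T := (le_max_left _ _).trans hT
    have hT16 : 16 ≤ T := hT1.trans hTT1
    have hsq : Real.exp (c * (a + 1)) / c ≤ √T := Real.le_sqrt_of_sq_le ((le_max_right _ _).trans hT)
    have k1 : ∫ α in a..(a + 1), Real.exp (-c * (a + 1)) * √T ≤ ∫ α in a..(a + 1), Real.exp (-c * α) * v T α := by
      refine intervalIntegral.integral_mono_on (by linarith) (by simp) (exp_ii hT16 (by linarith) (by linarith))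
        fun α hα => ?_
      have k2 := h T α hTT1 hα.1 hα.2
      have k3 : Real.exp (-c * (a + 1)) ≤ Real.exp (-c * α) := Real.exp_le_exp.2 (by nlinarith [hα.2])
      have k4 : 0 ≤ √T := Real.sqrt_nonneg _
      gcongr
    rw [intervalIntegral.integral_const, smul_eq_mul] at k1
    have k5 : 1 / c ≤ Real.exp (-c * (a + 1)) * √T := by
      have e : Real.exp (-c * (a + 1)) * (Real.exp (c * (a + 1)) / c) = 1 / c := by
        rw [mul_div_assoc', ← Real.exp_add]
        simp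
      rw [← e]
      gcongr
    have k6 : ∫ α in a..(a + 1), Real.exp (-c * α) * v T α ≤ ∫ α in (0 : ℝ)..(a + 1), Real.exp (-c * α) * v T α := by
      have h0 := (reg hT16).2.1
      apply intervalIntegral.integral_mono_interval (by linarith) (by linarith) le_rfl
        (Filter.Eventually.of_forall fun α => mul_nonneg (Real.exp_pos _).le (h0 α)) (exp_ii hT16 le_rfl (by linarith))
    have k7 : (a + 1 - a) * (Real.exp (-c * (a + 1)) * √T) = Real.exp (-c * (a + 1)) * √T := by ring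
    rw [k7] at k1
    linarith

/-- the primitive at a fixed point is bounded -/
lemma prim_bdd (hRH : RiemannHypothesis) {A : ℝ} (hA : 0 ≤ A) : ∃ C T0 : ℝ, 0 < C ∧ 16 ≤ T0 ∧ ∀ T : ℝ, T0 ≤ T →
    ∫ α in (0 : ℝ)..A, v T α ≤ C := by
  obtain ⟨⟨C, T0, hC, hT0, h⟩, -⟩ := lap hRH one_pos le_rfl
  refine ⟨Real.exp A * C, T0, by positivity, hT0, fun T hT => ?_⟩
  obtain ⟨-, h0, hLI⟩ := reg (hT0.trans hT)
  obtain ⟨hi, hle⟩ := h T hT
  have k1 : ∫ α in (0 : ℝ)..A, v T α ≤ ∫ α in (0 : ℝ)..A, Real.exp A * (Real.exp (-1 * α) * v T α) := by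
    refine intervalIntegral.integral_mono_on hA (hLI _ _ le_rfl hA) ?_ fun α hα => ?_
    · refine IntervalIntegrable.const_mul ?_ _
      rw [intervalIntegrable_iff_integrableOn_Ioc_of_le hA]
      exact hi.mono_set Ioc_subset_Ioi_self
    · rw [← mul_assoc, ← Real.exp_add]
      apply le_mul_of_one_le_left (h0 α)
      apply Real.one_le_exp
      linarith [hα.2]
  rw [intervalIntegral.integral_const_mul] at k1
  refine k1.trans (mul_le_mul_of_nonneg_left ?_ (Real.exp_pos A).le)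
  refine le_trans ?_ hle
  rw [intervalIntegral.integral_of_le hA]
  exact setIntegral_mono_set hi (Filter.Eventually.of_forall fun α => mul_nonneg (Real.exp_pos _).le (h0 α))
    Ioc_subset_Ioi_self.eventuallyLE

lemma mp_val {b : ℝ} (hb : 1 ≤ b) : ∫ α in (0 : ℝ)..b, min α 1 = b - 1 / 2 := by
  rw [← intervalIntegral.integral_add_adjacent_intervals (b := 1) (min_cont.intervalIntegrable _ _)
    (min_cont.intervalIntegrable _ _)]
  have h1 : ∫ α in (0 : ℝ)..1, min α 1 = ∫ α in (0 : ℝ)..1, α := by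
    refine intervalIntegral.integral_congr fun α hα => ?_
    rw [uIcc_of_le zero_le_one] at hα
    exact min_eq_left hα.2
  have h2 : ∫ α in (1 : ℝ)..b, min α 1 = ∫ α in (1 : ℝ)..b, (1 : ℝ) := by
    refine intervalIntegral.integral_congr fun α hα => ?_
    rw [uIcc_of_le hb] at hα
    exact min_eq_right hα.1
  rw [h1, h2, integral_id]
  simp
  ring

/-- the primitive of `v` reaches the conjectured one -/
theorem reach (A : ℝ) {ε : ℝ} (hε : 0 < ε) : ∃ R T0 : ℝ, ∀ T : ℝ, T0 ≤ T → ∃ b : ℝ, A ≤ b ∧ 1 ≤ b ∧ b ≤ R ∧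
    (∫ α in (0 : ℝ)..b, min α 1) - ε ≤ ∫ α in (0 : ℝ)..b, v T α := by
  by_cases hRH : RiemannHypothesis
  · -- constants
    obtain ⟨A', hA'⟩ : ∃ A' : ℝ, A' = max A 1 := ⟨_, rfl⟩
    have hA1 : 1 ≤ A' := by rw [hA']; exact le_max_right _ _
    have hAA : A ≤ A' := by rw [hA']; exact le_max_left _ _
    obtain ⟨d, hd⟩ : ∃ d : ℝ, d = min ε 1 := ⟨_, rfl⟩
    have hd0 : 0 < d := by rw [hd]; exact lt_min hε one_pos
    have hd1 : d ≤ 1 := by rw [hd]; exact min_le_right _ _
    have hdε : d ≤ ε := by rw [hd]; exact min_le_left _ _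
    obtain ⟨C', T0, hC', hT0, h0⟩ := prim_bdd hRH (A := A') (by linarith)
    have hpos : 0 < 4 * A' * (C' + 2) := by positivity
    obtain ⟨c, hc⟩ : ∃ c : ℝ, c = min 1 (d / (4 * A' * (C' + 2))) := ⟨_, rfl⟩
    have hc0 : 0 < c := by rw [hc]; exact lt_min one_pos (by positivity)
    have hc1 : c ≤ 1 := by rw [hc]; exact min_le_left _ _
    have hc2 : c * A' * (C' + 2) ≤ d / 4 := by
      have h5 : c ≤ d / (4 * A' * (C' + 2)) := by rw [hc]; exact min_le_right _ _
      rw [le_div_iff₀ hpos] at h5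
      linarith
    obtain ⟨⟨C1, T1, -, hT1, h1⟩, hlow⟩ := lap hRH hc0 hc1
    obtain ⟨T2, hT2, h2⟩ := hlow (d / 4) (by linarith)
    obtain ⟨⟨C, T3, hC, hT3, h3⟩, -⟩ := lap hRH (c := c / 2) (by linarith) (by linarith)
    obtain ⟨B, hB⟩ : ∃ B : ℝ, B = max (A' + 1) (2 / c * (8 * C / d)) := ⟨_, rfl⟩
    have hB1 : A' + 1 ≤ B := by rw [hB]; exact le_max_left _ _
    have hB2 : 2 / c * (8 * C / d) ≤ B := by rw [hB]; exact le_max_right _ _
    refine ⟨B, max (max T0 T1) (max T2 T3), fun T hT => ?_⟩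
    have hTT0 : T0 ≤ T := ((le_max_left _ _).trans (le_max_left _ _)).trans hT
    have hTT1 : T1 ≤ T := ((le_max_right _ _).trans (le_max_left _ _)).trans hT
    have hTT2 : T2 ≤ T := ((le_max_left _ _).trans (le_max_right _ _)).trans hT
    have hTT3 : T3 ≤ T := ((le_max_right _ _).trans (le_max_right _ _)).trans hT
    have hT16 : 16 ≤ T := hT1.trans hTT1
    obtain ⟨r1, r2, r3⟩ := reg hT16
    by_contra hcon
    push Not at hcon
    have hD : ∀ b ∈ Icc A' B, Ph (v T) b ≤ b - 1 / 2 - d := by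
      intro b hb
      have h5 := hcon b (hAA.trans hb.1) (hA1.trans hb.1) hb.2
      rw [mp_val (hA1.trans hb.1)] at h5
      unfold Ph
      linarith
    obtain ⟨k2, k3⟩ := h3 T hTT3
    have hdet := det2 r1 r2 r3 (c := c) (C := C) (C' := C') (κ := d / 4) (d := d) (A := A') (B := B)
      hc0 (h1 T hTT1).1 (h2 T hTT2) k2 k3 hd0 hd1 hA1 (by linarith) (by linarith) (h0 T hTT0) hD
    have k5 : 2 * C * Real.exp (-(c / 2) * B) ≤ d / 4 := by
      have e1 : 8 * C / d ≤ c / 2 * B := by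
        have := mul_le_mul_of_nonneg_left hB2 (by positivity : 0 ≤ c / 2)
        have e2 : c / 2 * (2 / c * (8 * C / d)) = 8 * C / d := by field_simp
        linarith
      have e3 : -(c / 2) * B ≤ -(8 * C / d) := by linarith
      have e4 : Real.exp (-(c / 2) * B) ≤ Real.exp (-(8 * C / d)) := Real.exp_le_exp.2 e3
      rw [Real.exp_neg] at e4
      have k6 : 8 * C / d ≤ Real.exp (8 * C / d) := by
        have := Real.add_one_le_exp (8 * C / d)
        linarith
      have k7 : 0 < 8 * C / d := by positivity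
      calc 2 * C * Real.exp (-(c / 2) * B) ≤ 2 * C * (Real.exp (8 * C / d))⁻¹ := by gcongr
        _ ≤ 2 * C * (8 * C / d)⁻¹ := by gcongr
        _ = d / 4 := by field_simp; norm_num
    linarith
  · obtain ⟨a, T1, ha, hAa, hT1, h⟩ := large hRH A
    refine ⟨a + 1, max T1 ((a + 1) ^ 2), fun T hT => ⟨a + 1, by linarith, by linarith, le_rfl, ?_⟩⟩
    have hTT1 : T1 ≤ T := (le_max_left _ _).trans hT
    have hT16 : 16 ≤ T := hT1.trans hTT1
    obtain ⟨r1, r2, r3⟩ := reg hT16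
    have hsq : a + 1 ≤ √T := Real.le_sqrt_of_sq_le ((le_max_right _ _).trans hT)
    have k1 : ∫ α in a..(a + 1), √T ≤ ∫ α in a..(a + 1), v T α := by
      refine intervalIntegral.integral_mono_on (by linarith) (by simp) (r3 _ _ (by linarith) (by linarith))
        fun α hα => h T α hTT1 hα.1 hα.2
    rw [intervalIntegral.integral_const, smul_eq_mul] at k1
    have k2 := Ph_sub r3 (by linarith : 0 ≤ a) (by linarith : 0 ≤ a + 1)
    have k3 : 0 ≤ Ph (v T) a := intervalIntegral.integral_nonneg (by linarith) fun α _ => r2 α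
    rw [mp_val (by linarith)]
    unfold Ph at k2 k3
    have k5 : (a + 1 - a) * √T = √T := by ring
    rw [k5] at k1
    linarith

/-- the lower bound in the mean over a window with a given left end -/
theorem window {A : ℝ} (hA : 0 ≤ A) {ε : ℝ} (hε : 0 < ε) : ∃ R T0 : ℝ, ∀ T : ℝ, T0 ≤ T →
    ∃ b : ℝ, A + 1 ≤ b ∧ b ≤ R ∧ (1 - ε) * (b - A) ≤ ∫ α in A..b, v T α := by
  by_cases hRH : RiemannHypothesis
  · obtain ⟨C', T0, hC', hT0, h0⟩ := prim_bdd hRH hA
    obtain ⟨R, T1, h1⟩ := reach (A + 1 + (1 + C') / ε) (ε := 1 / 2) (by norm_num)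
    refine ⟨R, max T0 T1, fun T hT => ?_⟩
    have hTT0 : T0 ≤ T := (le_max_left _ _).trans hT
    obtain ⟨b, hb1, hb2, hb3, hb4⟩ := h1 T ((le_max_right _ _).trans hT)
    obtain ⟨r1, r2, r3⟩ := reg (hT0.trans hTT0)
    have hCε : 0 < (1 + C') / ε := by positivity
    refine ⟨b, by linarith, hb3, ?_⟩
    have k1 := Ph_sub r3 hA (by linarith : 0 ≤ b)
    have k2 := h0 T hTT0
    rw [mp_val hb2] at hb4
    have k3 : 1 + C' ≤ ε * (b - A) := by
      have k4 : (1 + C') / ε ≤ b - A := by linarith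
      rw [div_le_iff₀ hε] at k4
      linarith
    unfold Ph at k1
    nlinarith
  · obtain ⟨a, T1, ha, hAa, hT1, h⟩ := large hRH A
    refine ⟨a + 1, max T1 ((a + 1) ^ 2), fun T hT => ⟨a + 1, by linarith, le_rfl, ?_⟩⟩
    have hTT1 : T1 ≤ T := (le_max_left _ _).trans hT
    have hT16 : 16 ≤ T := hT1.trans hTT1
    obtain ⟨r1, r2, r3⟩ := reg hT16
    have hsq : a + 1 ≤ √T := Real.le_sqrt_of_sq_le ((le_max_right _ _).trans hT)
    have k1 : ∫ α in a..(a + 1), √T ≤ ∫ α in a..(a + 1), v T α := by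
      refine intervalIntegral.integral_mono_on (by linarith) (by simp) (r3 _ _ (by linarith) (by linarith))
        fun α hα => h T α hTT1 hα.1 hα.2
    rw [intervalIntegral.integral_const, smul_eq_mul] at k1
    have k2 : ∫ α in a..(a + 1), v T α ≤ ∫ α in A..(a + 1), v T α := by
      apply intervalIntegral.integral_mono_interval hAa (by linarith) le_rfl
        (Filter.Eventually.of_forall fun α => r2 α) (r3 _ _ hA (by linarith))
    have k5 : (a + 1 - a) * √T = √T := by ring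
    rw [k5] at k1
    nlinarith

/-- one exponent with the lower bound of the conjecture -/
theorem point (A : ℝ) {ε : ℝ} (hε : 0 < ε) : ∃ R T0 : ℝ, ∀ T : ℝ, T0 ≤ T →
    ∃ X : ℝ, T ^ A ≤ X ∧ X ≤ T ^ R ∧ (1 - ε) * (X / T * Real.log T) ≤ Var X (X / T) := by
  obtain ⟨A', hA'⟩ : ∃ A' : ℝ, A' = max A 0 := ⟨_, rfl⟩
  have hA0 : 0 ≤ A' := by rw [hA']; exact le_max_right _ _
  have hAA : A ≤ A' := by rw [hA']; exact le_max_left _ _
  obtain ⟨R, T0, h⟩ := window hA0 (ε := ε / 2) (by linarith)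
  refine ⟨R, max 16 T0, fun T hT => ?_⟩
  have hT16 : 16 ≤ T := (le_max_left _ _).trans hT
  have hT0 : 0 < T := by linarith
  obtain ⟨b, hb1, hb2, hb3⟩ := h T ((le_max_right _ _).trans hT)
  obtain ⟨r1, r2, r3⟩ := reg hT16
  obtain ⟨α, hα1, hα2, hα3⟩ : ∃ α : ℝ, A' ≤ α ∧ α ≤ b ∧ 1 - ε ≤ v T α := by
    by_contra hcon
    push Not at hcon
    have k1 : ∫ α in A'..b, v T α ≤ ∫ α in A'..b, (1 - ε) :=
      intervalIntegral.integral_mono_on (by linarith) (r3 _ _ hA0 (by linarith)) (by simp)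
        fun α hα => (hcon α hα.1 hα.2).le
    rw [intervalIntegral.integral_const, smul_eq_mul] at k1
    nlinarith
  have hTα : 0 < T ^ α := Real.rpow_pos_of_pos hT0 α
  have hlog : 0 < Real.log T := Real.log_pos (by linarith)
  refine ⟨T ^ α, Real.rpow_le_rpow_of_exponent_le (by linarith) (hAA.trans hα1),
    Real.rpow_le_rpow_of_exponent_le (by linarith) (hα2.trans hb2), ?_⟩
  unfold v at hα3
  rwa [le_div_iff₀ (by positivity)] at hα3

/-- an upper bound for the truncated integral -/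
lemma upper (hRH : RiemannHypothesis) {c : ℝ} (hc : 0 < c) (hc1 : c ≤ 1) : ∃ K T0 : ℝ, ∀ T : ℝ, T0 ≤ T →
    ∀ B : ℝ, 0 ≤ B → ∫ α in (0 : ℝ)..B, Real.exp (-c * α) * v T α ≤ K := by
  obtain ⟨⟨C, T0, hC, hT0, h⟩, -⟩ := lap hRH hc hc1
  refine ⟨C, T0, fun T hT B hB => ?_⟩
  obtain ⟨-, h0, -⟩ := reg (hT0.trans hT)
  obtain ⟨hi, hle⟩ := h T hT
  refine le_trans ?_ hle
  rw [intervalIntegral.integral_of_le hB]
  exact setIntegral_mono_set hi (Filter.Eventually.of_forall fun α => mul_nonneg (Real.exp_pos _).le (h0 α))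
    Ioc_subset_Ioi_self.eventuallyLE

theorem result :
    -- 1. the lower bound for the Laplace mean
    (∀ c ε : ℝ, 0 < c → c ≤ 1 → 0 < ε → ∃ B T0 : ℝ, ∀ T : ℝ, T0 ≤ T →
      1 / c - 1 / 2 - ε ≤ ∫ α in (0 : ℝ)..B, Real.exp (-c * α) * v T α) ∧
    -- 2. the upper bound for the Laplace mean
    (∀ l : Filter ℝ, NeBot l → l ≤ atTop → ∀ c : ℝ, 0 < c → c ≤ 1 → (RiemannHypothesis ↔
      ∃ K : ℝ, ∀ᶠ T in l, ∀ B : ℝ, 0 ≤ B → ∫ α in (0 : ℝ)..B, Real.exp (-c * α) * v T α ≤ K)) ∧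
    -- 3. the lower bound of the conjecture in the mean over `[0, b]`
    (∀ A ε : ℝ, 0 < ε → ∃ R T0 : ℝ, ∀ T : ℝ, T0 ≤ T → ∃ b : ℝ, A ≤ b ∧ 1 ≤ b ∧ b ≤ R ∧
      (∫ α in (0 : ℝ)..b, min α 1) - ε ≤ ∫ α in (0 : ℝ)..b, v T α) ∧
    -- 4. the lower bound of the conjecture in the mean over `[A, b]`
    (∀ A ε : ℝ, 0 ≤ A → 0 < ε → ∃ R T0 : ℝ, ∀ T : ℝ, T0 ≤ T → ∃ b : ℝ, A + 1 ≤ b ∧ b ≤ R ∧
      (1 - ε) * (b - A) ≤ ∫ α in A..b, v T α) ∧
    -- 5. the lower bound of the conjecture for one `X` in `[T^A, T^R]`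
    (∀ A ε : ℝ, 0 < ε → ∃ R T0 : ℝ, ∀ T : ℝ, T0 ≤ T → ∃ X : ℝ, T ^ A ≤ X ∧ X ≤ T ^ R ∧
      (1 - ε) * (X / T * Real.log T) ≤ Var X (X / T)) := by
  refine ⟨fun c ε hc hc1 hε => ?_, fun l hl0 hl c hc hc1 => ⟨fun hRH => ?_, fun h => ?_⟩, fun A ε hε => reach A hε,
    fun A ε hA hε => window hA hε, fun A ε hε => point A hε⟩
  · obtain ⟨B, T0, -, h⟩ := lower hc hc1 hε
    exact ⟨B, T0, h⟩
  · obtain ⟨K, T0, h⟩ := upper hRH hc hc1
    refine ⟨K, ?_⟩
    filter_upwards [hl (eventually_ge_atTop T0)] with T hT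
    exact h T hT
  · obtain ⟨K, hK⟩ := h
    refine rh_of_up hl one_pos fun a ha => ⟨Real.exp (c * (a + 1)) * K, ?_⟩
    filter_upwards [hK, hl (eventually_ge_atTop 16)] with T h1 hT
    obtain ⟨-, h0, hLI⟩ := reg hT
    have k1 : ∫ α in a..(a + 1), v T α ≤
        ∫ α in a..(a + 1), Real.exp (c * (a + 1)) * (Real.exp (-c * α) * v T α) := by
      refine intervalIntegral.integral_mono_on (by linarith) (hLI _ _ (by linarith) (by linarith))
        ((exp_ii hT (by linarith) (by linarith)).const_mul _) fun α hα => ?_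
      rw [← mul_assoc, ← Real.exp_add]
      apply le_mul_of_one_le_left (h0 α)
      apply Real.one_le_exp
      nlinarith [hα.2]
    rw [intervalIntegral.integral_const_mul] at k1
    have k2 : ∫ α in a..(a + 1), Real.exp (-c * α) * v T α ≤ K := by
      refine le_trans ?_ (h1 (a + 1) (by linarith))
      apply intervalIntegral.integral_mono_interval (by linarith) (by linarith) le_rfl
        (Filter.Eventually.of_forall fun α => mul_nonneg (Real.exp_pos _).le (h0 α)) (exp_ii hT le_rfl (by linarith))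
    calc ∫ α in a..(a + 1), vv T α = ∫ α in a..(a + 1), v T α := rfl
      _ ≤ Real.exp (c * (a + 1)) * ∫ α in a..(a + 1), Real.exp (-c * α) * v T α := k1
      _ ≤ Real.exp (c * (a + 1)) * K := mul_le_mul_of_nonneg_left k2 (Real.exp_pos _).le

end Pool.Agent.Results.MP_2a816b_nt.LaplaceMean
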