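import Pool.Agent.U507.AH.E17

/-!
# The minimal value of the weighted variance of the primes in short intervals

No hypothesis is assumed. For real `R > 1` let
`V_R(T) = (T / log² T) ∫_1^{T^R} (R - log x / log T) (ψ(x + x/T) - ψ(x) - x/T)² dx / x²`.
The asymptotic formula predicted for the variance would give `V_R(T) → (R² - R) / 2 + 1 / 6`.

(1) For all large `R` (for all `R > 1` if the Riemann hypothesis is true) the maximum of `V_R` over the
heights between `T / K` and `K T` is at least `(R² - R) / 2 - δ`, for every large `T`, where `K` depends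
on `R` and `δ` only. So the predicted value is a lower bound up to `1 / 6`. For two values `R`, `R'`
with an irrational quotient the bound is not sharp: one of `V_R - (R² - R) / 2`, `V_{R'} - (R'² - R') / 2`
exceeds a positive constant between `T / K` and `K T`, for every large `T`.

(2) Let `T_j → ∞`. The following are equivalent: (a) the Riemann hypothesis is true, and near the heights
`T_j` almost all normalised spacings of the zeros of the Riemann zeta function are near the positive
multiples of `1 / R` (for `R = 2`: the Alternative Hypothesis for almost all spacings); (b) near the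
`T_j` we have `limsup V_R ≤ (R² - R) / 2` and `V_S` is bounded for every `S` (the second condition can be
dropped if the Riemann hypothesis is true); (c) near the `T_j` we have `V_{kR} → ((kR)² - kR) / 2` for all
`k ≥ 1`. Here `near the T_j` means: for all heights between `T_j / K` and `K T_j`, for every fixed `K`.

Idea of the proof. Let `f_T(s)` be `s` times the variance for the relative length `exp(s/T) - 1` of
the intervals. On the Riemann hypothesis the Laplace transform of `f_T` in `s` is a positive average,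
over the heights `t T`, of the mean squares of the real part of `ζ'/ζ(1/2 + c/log T + iv)` and so of the
Laplace transforms in `α` of the form factor `F(α, t T)`. By polynomial approximation the Laplace weights
can be replaced by the tent, and the form factor weighted by the tent is `R²/2` plus a nonnegative sum
over the pairs of different zeros, which is small if and only if almost all spacings are near the
lattice. In one direction one uses the positivity of the average, in the other direction the uniqueness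
of Laplace transforms together with the continuity of `f_T` in `s` in mean square. If the Riemann
hypothesis is false then the first moment, and so the variance, is far too large for large `R`, near
every large height. The last statement of (1) follows from (2): the lattices of the multiples of `1 / R`
and of `1 / R'` have a positive distance in bounded intervals, and most spacings are bounded.
-/

set_option autoImplicit false

open Filter Topology

namespace Pool.Agent.Results.MP_2a816b_nt.MinimalVariance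

/-- the multiplicity of `s` as a zero of the Riemann zeta function (order of vanishing at `s`) -/
noncomputable def zmult (s : ℂ) : ℕ := analyticOrderNatAt riemannZeta s

/-- the nontrivial zeros of `ζ` with ordinate in `(0, T]` -/
def zeros (T : ℝ) : Set ℂ :=
  {s : ℂ | riemannZeta s = 0 ∧ 0 < s.re ∧ s.re < 1 ∧ 0 < s.im ∧ s.im ≤ T}

/-- the number of the nontrivial zeros of `ζ` with ordinate in `(0, T]`, with multiplicity -/
noncomputable def N (T : ℝ) : ℕ := ∑ᶠ s ∈ zeros T, zmult s

/-- for `n ≥ 1`: the `n`-th positive ordinate `γ n` of a nontrivial zero of `ζ`, the ordinates being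
listed in nondecreasing order and repeated according to multiplicity -/
noncomputable def γ (n : ℕ) : ℝ := sInf {t : ℝ | n ≤ N t}

/-- the normalised spacings `d_n = γ_{n+1} log γ_{n+1} / 2π - γ_n log γ_n / 2π` -/
noncomputable def d (n : ℕ) : ℝ :=
  (γ (n + 1) * Real.log (γ (n + 1)) - γ n * Real.log (γ n)) / (2 * Real.pi)

/-- the proportion, among the spacings `d_n` with `γ_n ≤ T`, of those whose distance from each of
the numbers `k / R`, `k = 1, 2, 3, …`, is at least `ε` -/
noncomputable def away (R ε T : ℝ) : ℝ :=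
  ({n : ℕ | 1 ≤ n ∧ γ n ≤ T ∧ ∀ k : ℕ, 1 ≤ k → ε ≤ |d n - k / R|}.ncard : ℝ) / N T

/-- the weighted variance of the primes in the intervals of relative length `1 / T`,
`V_R(T) = (T / log² T) ∫_1^{T^R} (R - log x / log T) (ψ(x + x/T) - ψ(x) - x/T)² dx / x²` -/
noncomputable def V (R T : ℝ) : ℝ :=
  T / Real.log T ^ 2 * ∫ x in (1 : ℝ)..(T ^ R),
    (R - Real.log x / Real.log T) * (Chebyshev.psi (x + x / T) - Chebyshev.psi x - x / T) ^ 2 / x ^ 2

/-- `P t` holds for all `t` between `T j / K` and `K T j`, for every `K ≥ 1` and all large `j` -/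
def Near (T : ℕ → ℝ) (P : ℝ → Prop) : Prop :=
  ∀ K : ℝ, 1 ≤ K → ∀ᶠ j : ℕ in atTop, ∀ t : ℝ, T j / K ≤ t → t ≤ K * T j → P t

lemma away_eq (R ε T : ℝ) :
    away R ε T = ((Pool.Agent.Y763.AH.BT R ε T).card : ℝ) / SG.NZ T := by
  classical
  unfold away
  congr 2
  rw [← Set.ncard_coe_finset]
  congr 1
  ext n
  unfold Pool.Agent.Y763.AH.BT Pool.Agent.Y763.AH.Bad
  rw [Finset.mem_coe, Finset.mem_filter, Finset.mem_Ioc]
  constructor
  · rintro ⟨h1, h2, h3⟩
    exact ⟨⟨h1, (SG.ord_le_iff h1 T).1 h2⟩, h3⟩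
  · rintro ⟨⟨h1, h2⟩, h3⟩
    exact ⟨h1, (SG.ord_le_iff h1 T).2 h2, h3⟩

lemma V_eq {R T : ℝ} (hR : 0 < R) (hT : 1 < T) : V R T = Pool.Agent.U507.AH.VR R T :=
  (Pool.Agent.U507.AH.VR_eq hR hT).symm

lemma Near.mono {T : ℕ → ℝ} {P Q : ℝ → Prop} (h : Near T P) (hPQ : ∀ t, P t → Q t) : Near T Q :=
  fun K hK => (h K hK).mono fun j hj t h1 h2 => hPQ t (hj t h1 h2)

/-- heights near the `T j` are large -/
lemma Near.large {T : ℕ → ℝ} (hT : Tendsto T atTop atTop) (M : ℝ) : Near T fun t => M ≤ t := by
  intro K hK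
  have hK0 : 0 < K := by linarith
  filter_upwards [hT.eventually_ge_atTop (K * M)] with j hj t h1 _
  refine le_trans ?_ h1
  rw [le_div_iff₀ hK0]
  linarith

lemma Near.and {T : ℕ → ℝ} {P Q : ℝ → Prop} (h : Near T P) (h' : Near T Q) : Near T fun t => P t ∧ Q t :=
  fun K hK => by
    filter_upwards [h K hK, h' K hK] with j h1 h2 t h3 h4
    exact ⟨h1 t h3 h4, h2 t h3 h4⟩

/-- a property near the `T j` also holds on long intervals around all heights near the `T j` -/
lemma Near.shift {T : ℕ → ℝ} (hT : Tendsto T atTop atTop) {P : ℝ → Prop} (h : Near T P) {L : ℝ} (hL : 1 ≤ L) :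
    Near T fun t => ∀ t' : ℝ, t / L ≤ t' → t' ≤ L * t → P t' := by
  intro K hK
  have hK0 : 0 < K := by linarith
  have hL0 : 0 < L := by linarith
  filter_upwards [h (K * L) (by nlinarith), hT.eventually_ge_atTop 0] with j hj hTj t h1 h2 t' h3 h4
  refine hj t' ?_ ?_
  · refine le_trans ?_ h3
    rw [← div_div]
    gcongr
  · calc t' ≤ L * t := h4
      _ ≤ L * (K * T j) := by gcongr
      _ = K * L * T j := by ring

/-- **Theorem.** No hypothesis is assumed.

(1) There is `R₀` such that for every `R > 1` with `R ≥ R₀` (for every `R > 1` if the Riemann hypothesis is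
true) and for every `δ > 0` there is a `K` such that for all large `T` there is a `T'` between `T / K` and
`K T` with `V_R(T') > (R² - R) / 2 - δ`. If moreover `R' > 1` and `R / R'` is irrational then there are
`c > 0` and `K` such that for all large `T` there is a `T'` between `T / K` and `K T` with
`V_R(T') > (R² - R) / 2 + c` or `V_{R'}(T') > (R'² - R') / 2 + c`.

(2) Let `R > 1` and `T_j → ∞`. The following are equivalent:
(a) the Riemann hypothesis is true and, for every `ε > 0`, near the `T_j` the proportion of the spacings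
`d_n`, `γ_n ≤ t`, with distance at least `ε` from all the numbers `k / R`, `k ≥ 1`, is at most `ε`;
(b) for every `δ > 0`, near the `T_j` we have `V_R(t) ≤ (R² - R) / 2 + δ`, and either the Riemann hypothesis
is true or every `V_S`, `S > 1`, is bounded near the `T_j`;
(c) for every integer `k ≥ 1` and every `δ > 0`, near the `T_j` we have
`|V_{kR}(t) - ((kR)² - kR) / 2| ≤ δ`. -/
theorem result :
    (∃ R₀ : ℝ, ∀ R : ℝ, 1 < R → (RiemannHypothesis ∨ R₀ ≤ R) →
      (∀ δ : ℝ, 0 < δ → ∃ K T₀ : ℝ, 1 ≤ K ∧ ∀ T : ℝ, T₀ ≤ T →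
        ∃ T' : ℝ, T / K ≤ T' ∧ T' ≤ K * T ∧ (R ^ 2 - R) / 2 - δ < V R T') ∧
      (∀ R' : ℝ, 1 < R' → Irrational (R / R') → ∃ c K T₀ : ℝ, 0 < c ∧ 1 ≤ K ∧ ∀ T : ℝ, T₀ ≤ T →
        ∃ T' : ℝ, T / K ≤ T' ∧ T' ≤ K * T ∧
          ((R ^ 2 - R) / 2 + c < V R T' ∨ (R' ^ 2 - R') / 2 + c < V R' T'))) ∧
    (∀ R : ℝ, 1 < R → ∀ T : ℕ → ℝ, Tendsto T atTop atTop →
      ((RiemannHypothesis ∧ ∀ ε : ℝ, 0 < ε → Near T fun t => away R ε t ≤ ε) ↔
        ((∀ δ : ℝ, 0 < δ → Near T fun t => V R t ≤ (R ^ 2 - R) / 2 + δ) ∧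
          (RiemannHypothesis ∨ ∀ S : ℝ, 1 < S → ∃ C : ℝ, Near T fun t => V S t ≤ C))) ∧
      ((RiemannHypothesis ∧ ∀ ε : ℝ, 0 < ε → Near T fun t => away R ε t ≤ ε) ↔
        ∀ k : ℕ, 1 ≤ k → ∀ δ : ℝ, 0 < δ →
          Near T fun t => |V (k * R) t - ((k * R) ^ 2 - k * R) / 2| ≤ δ)) := by
  refine ⟨?_, fun R hR T hT => ?_⟩
  · obtain ⟨R₀, h0, h1⟩ := Pool.Agent.U507.AH.low_all2
    refine ⟨R₀, fun R hR hor => ⟨fun δ hδ => ?_, fun R' hR' hirr => ?_⟩⟩
    · obtain ⟨K, T0, hK, h⟩ := h0 R (by linarith) hor δ hδ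
      refine ⟨K, max T0 (2 * K), hK, fun T hT => ?_⟩
      obtain ⟨T', hT', k⟩ := h T ((le_max_left _ _).trans hT)
      have hK0 : 0 < K := by linarith
      have h2K : 2 ≤ T / K := by
        rw [le_div_iff₀ hK0]
        exact (le_max_right _ _).trans hT
      refine ⟨T', hT'.1, hT'.2, ?_⟩
      rw [V_eq (by linarith) (by linarith [hT'.1])]
      exact k
    · obtain ⟨c, K, T0, hc, hK, h⟩ := h1 R R' (by linarith) (by linarith) hor hirr
      refine ⟨c, K, max T0 (2 * K), hc, hK, fun T hT => ?_⟩
      obtain ⟨T', hT', k⟩ := h T ((le_max_left _ _).trans hT)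
      have hK0 : 0 < K := by linarith
      have h2K : 2 ≤ T / K := by
        rw [le_div_iff₀ hK0]
        exact (le_max_right _ _).trans hT
      refine ⟨T', hT'.1, hT'.2, ?_⟩
      rw [V_eq (by linarith) (by linarith [hT'.1]), V_eq (by linarith) (by linarith [hT'.1])]
      exact k
  have hR0 : 0 < R := by linarith
  -- (a) implies (c)
  have hac : (RiemannHypothesis ∧ ∀ ε : ℝ, 0 < ε → Near T fun t => away R ε t ≤ ε) →
      ∀ k : ℕ, 1 ≤ k → ∀ δ : ℝ, 0 < δ → Near T fun t => |V (k * R) t - ((k * R) ^ 2 - k * R) / 2| ≤ δ := by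
    rintro ⟨RH, h⟩ k hk δ hδ
    have hk1 : (1 : ℝ) ≤ k := by exact_mod_cast hk
    have hkR : 1 ≤ (k : ℝ) * R := by nlinarith
    obtain ⟨ε, κ, T0, hε, hκ, h1⟩ := Pool.Agent.U507.AH.loc_ac RH hkR hδ
    refine ((((h ε hε).shift hT hκ).and (Near.large hT T0)).and (Near.large hT 2)).mono ?_
    rintro t ⟨⟨h2, h3⟩, h4⟩
    have h5 := h2 (κ * t) (by
      have : t / κ ≤ t := div_le_self (by linarith) hκ
      nlinarith) le_rfl
    rw [V_eq (by linarith) (by linarith)]
    refine h1 t h3 (le_trans ?_ h5)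
    rw [away_eq]
    have h6 : ((Pool.Agent.Y763.AH.BT (k * R) ε (κ * t)).card : ℝ) ≤ (Pool.Agent.Y763.AH.BT R ε (κ * t)).card := by
      exact_mod_cast Pool.Agent.U507.AH.BT_mul hk hR0
    gcongr
  -- (c) implies (b)
  have hcb : (∀ k : ℕ, 1 ≤ k → ∀ δ : ℝ, 0 < δ → Near T fun t => |V (k * R) t - ((k * R) ^ 2 - k * R) / 2| ≤ δ) →
      ((∀ δ : ℝ, 0 < δ → Near T fun t => V R t ≤ (R ^ 2 - R) / 2 + δ) ∧
        (RiemannHypothesis ∨ ∀ S : ℝ, 1 < S → ∃ C : ℝ, Near T fun t => V S t ≤ C)) := by
    intro h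
    refine ⟨fun δ hδ => ?_, Or.inr fun S hS => ?_⟩
    · refine (h 1 le_rfl δ hδ).mono fun t h1 => ?_
      rw [Nat.cast_one, one_mul] at h1
      linarith [(abs_le.1 h1).2]
    · obtain ⟨k, hk⟩ := exists_nat_ge (S / R)
      have hk2 : S ≤ k * R := by
        rw [div_le_iff₀ hR0] at hk
        exact hk
      have hk1 : 1 ≤ k := by
        rcases Nat.eq_zero_or_pos k with h0 | h0
        · rw [h0] at hk2
          norm_num at hk2
          linarith
        · exact h0
      refine ⟨((k * R) ^ 2 - k * R) / 2 + 1, ((h k hk1 1 one_pos).and (Near.large hT 16)).mono ?_⟩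
      rintro t ⟨h1, h2⟩
      rw [V_eq (by linarith) (by linarith)] at h1 ⊢
      have h3 := Pool.Agent.U507.AH.VR_mono (by linarith : (0 : ℝ) < S) hk2 h2
      linarith [(abs_le.1 h1).2]
  -- (b) implies (a)
  have hba : ((∀ δ : ℝ, 0 < δ → Near T fun t => V R t ≤ (R ^ 2 - R) / 2 + δ) ∧
        (RiemannHypothesis ∨ ∀ S : ℝ, 1 < S → ∃ C : ℝ, Near T fun t => V S t ≤ C)) →
      (RiemannHypothesis ∧ ∀ ε : ℝ, 0 < ε → Near T fun t => away R ε t ≤ ε) := by
    rintro ⟨h, hor⟩
    have RH : RiemannHypothesis := by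
      rcases hor with h1 | h1
      · exact h1
      refine Pool.Agent.U507.AH.rh_of_VR fun R₀ => ?_
      obtain ⟨C, hC⟩ := h1 (max R₀ 2) (lt_of_lt_of_le (by norm_num) (le_max_right _ _))
      refine ⟨max R₀ 2, C, le_max_left _ _, hT.frequently (Eventually.frequently ?_)⟩
      filter_upwards [(hC.and (Near.large hT 2)) 2 (by norm_num), hT.eventually_ge_atTop 0] with j hj hj0 t ht
      obtain ⟨h2, h3⟩ := hj t (by linarith [ht.1]) (by linarith [ht.2])
      rwa [V_eq (lt_of_lt_of_le (by norm_num) (le_max_right _ _)) (by linarith)] at h2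
    refine ⟨RH, fun ε hε => ?_⟩
    obtain ⟨δ, K, T0, hδ, hK, h1⟩ := Pool.Agent.U507.AH.loc_ba RH hR0 hε
    refine (((h δ hδ).and (Near.large hT 2)).shift hT hK |>.and (Near.large hT T0)).mono ?_
    rintro t ⟨h2, h3⟩
    rw [away_eq]
    refine h1 t h3 fun T' hT' => ?_
    obtain ⟨h4, h5⟩ := h2 T' hT'.1 hT'.2
    rwa [V_eq hR0 (by linarith)] at h4
  exact ⟨⟨fun h => hcb (hac h), hba⟩, ⟨hac, fun h => hba (hcb h)⟩⟩

end Pool.Agent.Results.MP_2a816b_nt.MinimalVariance
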