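import Pool.Agent.R303.SW.Mo

/-!
# The variance of primes in short intervals along one sequence decides the Riemann hypothesis

Let `ψ(x; H)` be the sum of `Λ(n)` over `x - H / 2 ≤ n ≤ x + H / 2`.  The problem asks whether
`(1/X) ∫_1^X |ψ(x; H) - H|² dx ∼ H (log X - log H - (γ + log 2π))` for `X^ε < H < X^(1-ε)`.  (For `x < H / 2` the
interval is cut off at `0`, and this part alone contributes about `H³ / (24 X)` to the mean; below `W(X; H)` is the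
mean without the part `x < H`.)

1. If `ζ` has a zero with real part `> θ ≥ 1/2`, then for EVERY large `X` and EVERY `H ≤ X^(1-ε)` the mean of
`|ψ(x; H) - H|²` over the short window `X ≤ x ≤ X + c X / (log X)^κ` (`4 θ (1 - θ) (κ + 1) ≤ 1`) is at least
`H² X^(2θ-2)`.

2. So `W(X; H) ≥ H X^ε` for ALL large `X` and all `H` with `X^(2-2θ+ε) ≤ H ≤ X^(1-ε)`: if the Riemann hypothesis is
false, then the conjecture fails at every large `X`, for all `H` in a whole range.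

3. The half plane `Re s > θ` is free of zeros if and only if for all `δ > 0` there is `ε > 0` such that
`W(X; H) ≤ H² X^(2θ-2+δ)` for ONE sequence of `X → ∞` with one `H ≤ X^(1-ε)` each, and if and only if this is so for
all large `X` and all `H` between `X^(1-δ/8)` and `X`.

4. The Riemann hypothesis is true if and only if for all `δ > 0` there is `ε > 0` such that `W(X; H) ≤ H X^δ` for one
sequence of `X → ∞` with one `H` between `X^(1-δ)` and `X^(1-ε)` each.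
-/

set_option autoImplicit false

open MeasureTheory Filter Topology

namespace Pool.Agent.Results.MP_2a816b_nt.RHAtOneSequence

/-- `ψ(x; H)`, the sum of `Λ(n)` over the `n ≥ 1` with `x - H / 2 ≤ n ≤ x + H / 2` (for `x ≥ 0`, `H ≥ 0`; the term
`n = 0` is `0`) -/
noncomputable def psi (x H : ℝ) : ℝ :=
  ∑ n ∈ Finset.Icc ⌈x - H / 2⌉₊ ⌊x + H / 2⌋₊, ArithmeticFunction.vonMangoldt n

/-- the mean of `|ψ(x; H) - H|²` over `X ≤ x ≤ Y` -/
noncomputable def Mean (X Y H : ℝ) : ℝ := (1 / (Y - X)) * ∫ x in X..Y, |psi x H - H| ^ 2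

/-- `W(X; H)`, the mean of the problem without the part `x < H` -/
noncomputable def W (X H : ℝ) : ℝ := (1 / X) * ∫ x in H..X, |psi x H - H| ^ 2

/-- the von Mangoldt function -/
noncomputable def La (n : ℕ) : ℝ := ArithmeticFunction.vonMangoldt n

open Pool.Agent.R303.SW in
lemma psi_DF {x H : ℝ} (hH : 0 < H) (hx : H / 2 ≤ x) (hn : ∀ n : ℕ, x - H / 2 ≠ n) : psi x H = DF La H x := by
  have h0 : 0 ≤ x - H / 2 := by linarith
  have h1 : ⌈x - H / 2⌉₊ = ⌊x - H / 2⌋₊ + 1 := by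
    apply le_antisymm
    · exact Nat.ceil_le_floor_add_one _
    · rw [Nat.add_one_le_iff, Nat.lt_ceil]
      exact lt_of_le_of_ne (Nat.floor_le h0) (hn _).symm
  have h2 : ⌊x - H / 2⌋₊ ≤ ⌊x + H / 2⌋₊ := Nat.floor_mono (by linarith)
  have h3 : Finset.Icc 1 ⌊x + H / 2⌋₊ = Finset.Icc 1 ⌊x - H / 2⌋₊ ∪
      Finset.Icc (⌊x - H / 2⌋₊ + 1) ⌊x + H / 2⌋₊ := by
    ext n
    simp only [Finset.mem_union, Finset.mem_Icc]
    omega
  unfold psi DF Pool.Agent.W190.SF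
  rw [h3, Finset.sum_union (Finset.disjoint_left.2 fun n h4 h5 => by
    rw [Finset.mem_Icc] at h4 h5
    omega), add_sub_cancel_left, h1]
  rfl

lemma ae_not (H : ℝ) : ∀ᵐ x : ℝ, ∀ n : ℕ, x - H / 2 ≠ n := by
  rw [ae_all_iff]
  intro n
  have : {x : ℝ | ¬ (x - H / 2 ≠ n)} ⊆ {(n : ℝ) + H / 2} := by
    intro x hx
    simp only [ne_eq, not_not, Set.mem_ofPred_eq] at hx
    rw [Set.mem_singleton_iff]
    linarith
  exact measure_mono_null this (by simp)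

open Pool.Agent.R303.SW in
lemma int_psi {X Y H : ℝ} (hH : 0 < H) (hX : H / 2 ≤ X) (hXY : X ≤ Y) :
    ∫ x in X..Y, |psi x H - H| ^ 2 = ∫ x in X..Y, (DF La H x - H) ^ 2 := by
  apply intervalIntegral.integral_congr_ae
  filter_upwards [ae_not H] with x hx hxI
  rw [Set.uIoc_of_le hXY] at hxI
  rw [sq_abs, psi_DF hH (by linarith [hxI.1]) hx]

open Pool.Agent.R303.SW in
lemma ii_psi {X Y H : ℝ} (hH : 0 < H) (hX : H / 2 ≤ X) (hXY : X ≤ Y) :
    IntervalIntegrable (fun x => |psi x H - H| ^ 2) volume X Y := by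
  refine (DF_II2 La H H X Y).congr_ae ?_
  rw [Filter.EventuallyEq, ae_restrict_iff' measurableSet_uIoc]
  filter_upwards [ae_not H] with x hx hxI
  rw [Set.uIoc_of_le hXY] at hxI
  rw [sq_abs, psi_DF hH (by linarith [hxI.1]) hx]

open Pool.Agent.R303.SW in
lemma SF_La (y : ℝ) : Pool.Agent.W190.SF La y = Chebyshev.psi y := Pool.Agent.W190.SF_psi y

open Pool.Agent.R303.SW in
/-- the lower bound for the first moment -/
lemma first (θ κ c ε : ℝ) (hθ : 1 / 2 ≤ θ) (hκ : 0 ≤ κ) (hcond : 4 * θ * (1 - θ) * (κ + 1) ≤ 1)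
    (hc : 0 < c) (hε : 0 < ε) (hε1 : ε < 1) (hz : ∃ s : ℂ, riemannZeta s = 0 ∧ θ < s.re) :
    ∀ᶠ X : ℝ in atTop, ∀ H : ℝ, 0 < H → H ≤ X ^ (1 - ε) →
      H * X ^ θ ≤ ∫ x in X..(X + c * X / Real.log X ^ κ), |DF La H x - H| := by
  obtain ⟨s, hs, hsθ⟩ := hz
  obtain ⟨θ', hθ'⟩ : ∃ θ', θ' = (θ + s.re) / 2 := ⟨_, rfl⟩
  have hθ1 : θ < θ' := by rw [hθ']; linarith
  have hθ2 : θ' < s.re := by rw [hθ']; linarith
  have hcond' : 4 * θ' * (1 - θ') * (κ + 1) ≤ 1 := by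
    refine le_trans ?_ hcond
    refine mul_le_mul_of_nonneg_right ?_ (by linarith)
    nlinarith
  have h1 := psi_short (κ := κ) (c := c / 2 ^ κ) (e0 := ε / 2) hκ (by positivity) (θ := θ')
    (by linarith) hcond' ⟨s, hs, hθ2⟩ (by linarith)
  have h2 := recentre (f := fun y H => |Chebyshev.psi (y + H) - Chebyshev.psi y - H|) (fun y H => abs_nonneg _)
    (fun H x y => by
      have h3 := (DF_II La H H (x + H / 2) (y + H / 2)).comp_add_right (H / 2)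
      have e : (fun x => DF La H (x + H / 2) - H) = fun y => Chebyshev.psi (y + H) - Chebyshev.psi y - H := by
        funext z
        unfold DF
        rw [SF_La, SF_La, add_sub_cancel_right, add_assoc, add_halves]
      rw [e, add_sub_cancel_right, add_sub_cancel_right] at h3
      exact h3.abs) hθ1 (by linarith) hκ hc hε hε1 h1
  filter_upwards [h2] with X g1 H hH hH1
  refine (g1 H hH hH1).trans (le_of_eq ?_)
  refine intervalIntegral.integral_congr fun x _ => ?_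
  have e2 : x - H / 2 + H = x + H / 2 := by ring
  simp only [DF, e2, SF_La]

open Pool.Agent.R303.SW in
/-- the lower bound for the means over short windows -/
lemma low (θ κ c ε : ℝ) (hθ : 1 / 2 ≤ θ) (hκ : 0 ≤ κ) (hcond : 4 * θ * (1 - θ) * (κ + 1) ≤ 1)
    (hc : 0 < c) (hε : 0 < ε) (hε1 : ε < 1) (hz : ∃ s : ℂ, riemannZeta s = 0 ∧ θ < s.re) :
    ∀ᶠ X : ℝ in atTop, ∀ H : ℝ, 0 < H → H ≤ X ^ (1 - ε) →
      H ^ 2 * X ^ (2 * θ - 2) ≤ Mean X (X + c * X / Real.log X ^ κ) H := by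
  obtain ⟨s, hs, hsθ⟩ := hz
  obtain ⟨θ', hθ'⟩ : ∃ θ', θ' = (θ + s.re) / 2 := ⟨_, rfl⟩
  have hθ1 : θ < θ' := by rw [hθ']; linarith
  have hθ2 : θ' < s.re := by rw [hθ']; linarith
  have hcond' : 4 * θ' * (1 - θ') * (κ + 1) ≤ 1 := by
    refine le_trans ?_ hcond
    refine mul_le_mul_of_nonneg_right ?_ (by linarith)
    nlinarith
  have h1 := first θ' κ c ε (by linarith) hκ hcond' hc hε hε1 ⟨s, hs, hθ2⟩
  have t1 : ∀ᶠ X : ℝ in atTop, c ≤ X ^ (θ' - θ) :=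
    (tendsto_rpow_atTop (by linarith)).eventually_ge_atTop _
  filter_upwards [h1, t1, eventually_ge_atTop 1, Real.tendsto_log_atTop.eventually_ge_atTop 1] with
    X g1 g2 g3 g4 H hH hH1
  have hX : 0 < X := by linarith
  have hHX : H ≤ X := by
    refine hH1.trans ?_
    conv_rhs => rw [← Real.rpow_one X]
    exact Real.rpow_le_rpow_of_exponent_le g3 (by linarith)
  have hL : 1 ≤ Real.log X ^ κ := Real.one_le_rpow g4 hκ
  have hL0 : 0 < Real.log X ^ κ := by linarith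
  obtain ⟨w, hW⟩ : ∃ w, w = c * X / Real.log X ^ κ := ⟨_, rfl⟩
  have hW0 : 0 < w := by rw [hW]; positivity
  have hWc : w ≤ c * X := by
    rw [hW]
    exact div_le_self (by positivity) hL
  have k1 := g1 H hH hH1
  rw [← hW] at k1 ⊢
  have k2 := cs_int (by linarith : X < X + w) (DF_II La H H X (X + w)).abs (DF_II2 La H H X (X + w))
  rw [← int_psi hH (by linarith) (by linarith)] at k2
  refine le_trans ?_ k2
  rw [show X + w - X = w by ring]
  have h5 : H * X ^ (θ - 1) ≤ 1 / w * ∫ x in X..X + w, |DF La H x - H| := by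
    rw [div_mul_eq_mul_div, one_mul, le_div_iff₀ hW0]
    refine le_trans ?_ k1
    have e1 : X ^ (θ - 1) * (c * X) ≤ X ^ θ' := by
      have e2 : X ^ (θ - 1) * X = X ^ θ := by
        rw [← Real.rpow_add_one hX.ne']
        congr 1
        ring
      have e3 : X ^ θ * X ^ (θ' - θ) = X ^ θ' := by
        rw [← Real.rpow_add hX]
        congr 1
        ring
      calc X ^ (θ - 1) * (c * X) = c * (X ^ (θ - 1) * X) := by ring
        _ = c * X ^ θ := by rw [e2]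
        _ ≤ X ^ (θ' - θ) * X ^ θ := mul_le_mul_of_nonneg_right g2 (by positivity)
        _ = X ^ θ' := by rw [mul_comm, e3]
    calc H * X ^ (θ - 1) * w ≤ H * X ^ (θ - 1) * (c * X) := by gcongr
      _ = H * (X ^ (θ - 1) * (c * X)) := by ring
      _ ≤ H * X ^ θ' := mul_le_mul_of_nonneg_left e1 hH.le
  have h6 : H ^ 2 * X ^ (2 * θ - 2) = (H * X ^ (θ - 1)) ^ 2 := by
    rw [mul_pow, ← Real.rpow_natCast (X ^ (θ - 1)) 2, ← Real.rpow_mul hX.le]
    congr 2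
    push_cast
    ring
  rw [h6]
  exact pow_le_pow_left₀ (by positivity) h5 2

/-- the lower bound for `W` -/
lemma lowW (θ ε : ℝ) (hθ : 1 / 2 ≤ θ) (hε : 0 < ε) (hε1 : ε < 1)
    (hz : ∃ s : ℂ, riemannZeta s = 0 ∧ θ < s.re) :
    ∀ᶠ X : ℝ in atTop, ∀ H : ℝ, 0 < H → H ≤ X ^ (1 - ε) → H ^ 2 * X ^ (2 * θ - 2) ≤ W X H := by
  obtain ⟨s, hs, hsθ⟩ := hz
  obtain ⟨θ', hθ'⟩ : ∃ θ', θ' = (θ + s.re) / 2 := ⟨_, rfl⟩
  have hθ1 : θ < θ' := by rw [hθ']; linarith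
  have hθ2 : θ' < s.re := by rw [hθ']; linarith
  have h1 := low θ' 0 1 (ε / 2) (by linarith) le_rfl (by nlinarith [sq_nonneg (2 * θ' - 1)]) one_pos
    (by linarith) (by linarith) ⟨s, hs, hθ2⟩
  obtain ⟨X₀, hX₀⟩ := eventually_atTop.1 h1
  have t1 : ∀ᶠ X : ℝ in atTop, 2 * (2:ℝ) ^ (1 - ε / 2) ≤ X ^ (ε / 2) :=
    (tendsto_rpow_atTop (by linarith)).eventually_ge_atTop _
  have t2 : ∀ᶠ X : ℝ in atTop, (8 : ℝ) ≤ X ^ (2 * θ' - 2 * θ) :=
    (tendsto_rpow_atTop (by linarith)).eventually_ge_atTop _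
  filter_upwards [t1, t2, eventually_ge_atTop (2 * X₀), eventually_ge_atTop 8] with X a1 a2 a3 a4 H hH0 hH1
  have hX : 0 < X := by linarith
  have hX1 : 1 ≤ X := by linarith
  have b0 : 2 * H ≤ (X / 2) ^ (1 - ε / 2) := by
    rw [Real.div_rpow hX.le (by norm_num), le_div_iff₀ (by positivity)]
    calc 2 * H * 2 ^ (1 - ε / 2) = H * (2 * 2 ^ (1 - ε / 2)) := by ring
      _ ≤ X ^ (1 - ε) * X ^ (ε / 2) := by gcongr
      _ = X ^ (1 - ε / 2) := by rw [← Real.rpow_add hX]; congr 1; ring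
  have b1 : H ≤ (X / 2) ^ (1 - ε / 2) := by linarith
  have hHX : 2 * H ≤ X / 2 := by
    refine b0.trans ?_
    conv_rhs => rw [← Real.rpow_one (X / 2)]
    exact Real.rpow_le_rpow_of_exponent_le (by linarith) (by linarith)
  have b2 := hX₀ (X / 2) (by linarith) H hH0 b1
  rw [Real.rpow_zero, div_one, one_mul, add_halves] at b2
  unfold Mean at b2
  rw [show X - X / 2 = X / 2 by ring] at b2
  have hp1 : 0 ≤ ∫ x in H..(X / 2), |psi x H - H| ^ 2 :=
    intervalIntegral.integral_nonneg (by linarith) fun x _ => by positivity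
  have hadd := intervalIntegral.integral_add_adjacent_intervals
    (ii_psi (X := H) (Y := X / 2) hH0 (by linarith) (by linarith))
    (ii_psi (X := X / 2) (Y := X) hH0 (by linarith) (by linarith))
  have b3 : X ^ (2 * θ - 2) ≤ (X / 2) ^ (2 * θ' - 2) / 2 := by
    have hθ'1 : θ' ≤ 1 := by
      have := (Pool.Agent.W190.zero_FF hs).2
      linarith
    have e1 : X ^ (2 * θ' - 2) ≤ (X / 2) ^ (2 * θ' - 2) :=
      Real.rpow_le_rpow_of_nonpos (by linarith) (by linarith) (by linarith)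
    have e2 : X ^ (2 * θ' - 2) = X ^ (2 * θ - 2) * X ^ (2 * θ' - 2 * θ) := by
      rw [← Real.rpow_add hX]
      congr 1
      ring
    have e3 : 0 < X ^ (2 * θ - 2) := Real.rpow_pos_of_pos hX _
    nlinarith
  unfold W
  rw [← hadd]
  calc H ^ 2 * X ^ (2 * θ - 2) ≤ H ^ 2 * ((X / 2) ^ (2 * θ' - 2) / 2) := by gcongr
    _ = (H ^ 2 * (X / 2) ^ (2 * θ' - 2)) / 2 := by ring
    _ ≤ (1 / (X / 2) * ∫ x in X / 2..X, |psi x H - H| ^ 2) / 2 := by gcongr
    _ = 1 / X * ∫ x in X / 2..X, |psi x H - H| ^ 2 := by field_simp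
    _ ≤ _ := by
      refine mul_le_mul_of_nonneg_left ?_ (by positivity)
      linarith

open Pool.Agent.R303.SW in
/-- the upper bound -/
lemma up (θ δ : ℝ) (hθ : 1 / 2 ≤ θ) (hδ : 0 < δ) (hz : ∀ s : ℂ, θ < s.re → riemannZeta s ≠ 0) :
    ∀ᶠ X : ℝ in atTop, ∀ H : ℝ, 0 < H → H ≤ X → W X H ≤ X ^ (2 * θ + δ) := by
  obtain ⟨θ', hθ'⟩ : ∃ θ', θ' = θ + δ / 4 := ⟨_, rfl⟩
  have hθ0 : 0 ≤ θ' := by linarith
  obtain ⟨C, hC0, hC⟩ : ∃ C : ℝ, 0 ≤ C ∧ ∀ y : ℝ, 1 ≤ y → |Chebyshev.psi y - y| ≤ C * y ^ θ' := by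
    rcases le_total θ' 1 with h | h
    · obtain ⟨C, h1, h2⟩ := Pool.Agent.W190.psi_of_free θ hθ hz θ' (by linarith) h
      exact ⟨C, h1.le, h2⟩
    · refine ⟨Real.log 4 + 4 + 1, ?_, fun y hy => ?_⟩
      · have := Real.log_nonneg (show (1:ℝ) ≤ 4 by norm_num)
        linarith
      · have h1 := Chebyshev.psi_le_const_mul_self (x := y) (by linarith)
        have h2 := Chebyshev.psi_nonneg y
        have h3 : y ≤ y ^ θ' := by
          conv_lhs => rw [← Real.rpow_one y]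
          exact Real.rpow_le_rpow_of_exponent_le hy h
        have h5 : 0 ≤ Real.log 4 + 4 + 1 := by
          have := Real.log_nonneg (show (1:ℝ) ≤ 4 by norm_num)
          linarith
        have h6 : |Chebyshev.psi y - y| ≤ (Real.log 4 + 4 + 1) * y := by
          rw [abs_le]
          constructor <;> nlinarith
        exact h6.trans (mul_le_mul_of_nonneg_left h3 h5)
  have t1 : ∀ᶠ X : ℝ in atTop, (2 * (C * 2 ^ θ' + 1)) ^ 2 ≤ X ^ (δ / 2) :=
    (tendsto_rpow_atTop (by linarith)).eventually_ge_atTop _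
  filter_upwards [t1, eventually_ge_atTop 1] with X g1 g2 H hH hHX
  have hX : 0 < X := by linarith
  have hXθ : 1 ≤ X ^ θ' := Real.one_le_rpow g2 hθ0
  have hS : ∀ y : ℝ, 0 ≤ y → y ≤ 2 * X → |Chebyshev.psi y - y| ≤ (C * 2 ^ θ' + 1) * X ^ θ' := by
    intro y hy0 hy
    by_cases h1 : 1 ≤ y
    · refine (hC y h1).trans ?_
      have h2 : y ^ θ' ≤ 2 ^ θ' * X ^ θ' := by
        rw [← Real.mul_rpow (by norm_num) hX.le]
        exact Real.rpow_le_rpow (by linarith) hy hθ0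
      nlinarith [mul_le_mul_of_nonneg_left h2 hC0]
    · have h2 : Chebyshev.psi y = 0 := by
        apply Chebyshev.psi_eq_zero_of_lt_two
        linarith [not_le.1 h1]
      rw [h2, zero_sub, abs_neg, abs_of_nonneg hy0]
      have h3 : 0 ≤ C * 2 ^ θ' := by positivity
      nlinarith [not_le.1 h1]
  have hB : ∀ x ∈ Set.Icc H X, (DF La H x - H) ^ 2 ≤ (2 * ((C * 2 ^ θ' + 1) * X ^ θ')) ^ 2 := by
    intro x hx
    rw [← sq_abs]
    refine pow_le_pow_left₀ (abs_nonneg _) ?_ 2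
    unfold DF
    rw [SF_La, SF_La]
    have e1 := hS (x + H / 2) (by linarith [hx.1]) (by linarith [hx.2])
    have e2 := hS (x - H / 2) (by linarith [hx.1]) (by linarith [hx.2])
    rw [abs_le] at e1 e2 ⊢
    constructor <;> linarith
  unfold W
  rw [int_psi hH (by linarith) hHX]
  have h3 := intervalIntegral.integral_mono_on hHX (DF_II2 La H H H X) intervalIntegrable_const hB
  rw [intervalIntegral.integral_const, smul_eq_mul] at h3
  have h4 : (2 * ((C * 2 ^ θ' + 1) * X ^ θ')) ^ 2 ≤ X ^ (2 * θ + δ) := by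
    have e3 : (2 * ((C * 2 ^ θ' + 1) * X ^ θ')) ^ 2 = (2 * (C * 2 ^ θ' + 1)) ^ 2 * (X ^ θ') ^ 2 := by ring
    have e4 : (X ^ θ') ^ 2 = X ^ (2 * θ + δ / 2) := by
      rw [← Real.rpow_natCast, ← Real.rpow_mul hX.le]
      congr 1
      push_cast
      rw [hθ']
      ring
    rw [e3, e4]
    calc (2 * (C * 2 ^ θ' + 1)) ^ 2 * X ^ (2 * θ + δ / 2) ≤ X ^ (δ / 2) * X ^ (2 * θ + δ / 2) := by gcongr
      _ = X ^ (2 * θ + δ) := by
        rw [← Real.rpow_add hX]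
        congr 1
        ring
  have h5 : 0 ≤ (2 * ((C * 2 ^ θ' + 1) * X ^ θ')) ^ 2 := sq_nonneg _
  calc 1 / X * ∫ x in H..X, (DF La H x - H) ^ 2 ≤ 1 / X * ((X - H) * (2 * ((C * 2 ^ θ' + 1) * X ^ θ')) ^ 2) :=
        mul_le_mul_of_nonneg_left h3 (by positivity)
    _ ≤ 1 / X * (X * (2 * ((C * 2 ^ θ' + 1) * X ^ θ')) ^ 2) := by
        refine mul_le_mul_of_nonneg_left ?_ (by positivity)
        exact mul_le_mul_of_nonneg_right (by linarith) h5
    _ = (2 * ((C * 2 ^ θ' + 1) * X ^ θ')) ^ 2 := by field_simp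
    _ ≤ _ := h4

/-- the upper bound in terms of `H` -/
lemma up2 (θ δ : ℝ) (hθ : 1 / 2 ≤ θ) (hδ : 0 < δ) (hz : ∀ s : ℂ, θ < s.re → riemannZeta s ≠ 0) :
    ∀ᶠ X : ℝ in atTop, ∀ H : ℝ, X ^ (1 - δ / 8) ≤ H → H ≤ X → W X H ≤ H ^ 2 * X ^ (2 * θ - 2 + δ) := by
  filter_upwards [up θ (3 * δ / 4) hθ (by linarith) hz, eventually_ge_atTop 1] with X h g H hH1 hH2
  have hX : 0 < X := by linarith
  have hH0 : 0 < H := (Real.rpow_pos_of_pos hX _).trans_le hH1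
  refine (h H hH0 hH2).trans ?_
  have e1 : X ^ (2 - δ / 4) ≤ H ^ 2 := by
    have : X ^ (2 - δ / 4) = (X ^ (1 - δ / 8)) ^ 2 := by
      rw [← Real.rpow_natCast, ← Real.rpow_mul hX.le]
      congr 1
      push_cast
      ring
    rw [this]
    exact pow_le_pow_left₀ (by positivity) hH1 2
  calc X ^ (2 * θ + 3 * δ / 4) = X ^ (2 - δ / 4) * X ^ (2 * θ - 2 + δ) := by
        rw [← Real.rpow_add hX]
        congr 1
        ring
    _ ≤ _ := by gcongr

/-- one sequence is enough -/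
lemma one_seq (θ : ℝ) (hθ : 1 / 2 ≤ θ)
    (h : ∀ δ : ℝ, 0 < δ → ∃ ε : ℝ, 0 < ε ∧ ∃ᶠ X : ℝ in atTop, ∃ H : ℝ,
      0 < H ∧ H ≤ X ^ (1 - ε) ∧ W X H ≤ H ^ 2 * X ^ (2 * θ - 2 + δ)) :
    ∀ s : ℂ, θ < s.re → riemannZeta s ≠ 0 := by
  intro s hs h0
  obtain ⟨θ₂, hθ₂⟩ : ∃ θ₂, θ₂ = (θ + s.re) / 2 := ⟨_, rfl⟩
  obtain ⟨ε, hε, hfr⟩ := h (θ₂ - θ) (by linarith)
  have hlow := lowW θ₂ (min ε (1 / 2)) (by linarith) (lt_min hε (by norm_num))
    ((min_le_right _ _).trans_lt (by norm_num)) ⟨s, h0, by linarith⟩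
  obtain ⟨X, ⟨H, hH0, hH1, hH2⟩, h3, h4⟩ := (hfr.and_eventually (hlow.and (eventually_gt_atTop 1))).exists
  have hX : 0 < X := by linarith
  have h5 : H ≤ X ^ (1 - min ε (1 / 2)) :=
    hH1.trans (Real.rpow_le_rpow_of_exponent_le h4.le (by linarith [min_le_left ε (1 / 2)]))
  have h6 := h3 H hH0 h5
  have h7 : X ^ (2 * θ - 2 + (θ₂ - θ)) < X ^ (2 * θ₂ - 2) :=
    Real.rpow_lt_rpow_of_exponent_lt h4 (by linarith)
  have h8 : 0 < H ^ 2 := by positivity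
  nlinarith

/-- **The variance of primes in short intervals along one sequence decides the Riemann hypothesis.** -/
theorem result :
    -- 1. the lower bound, for every `X` and every `H`, over short windows
    (∀ θ κ c ε : ℝ, 1 / 2 ≤ θ → 0 ≤ κ → 4 * θ * (1 - θ) * (κ + 1) ≤ 1 → 0 < c → 0 < ε → ε < 1 →
      (∃ s : ℂ, riemannZeta s = 0 ∧ θ < s.re) →
      ∀ᶠ X : ℝ in atTop, ∀ H : ℝ, 0 < H → H ≤ X ^ (1 - ε) →
        H ^ 2 * X ^ (2 * θ - 2) ≤ Mean X (X + c * X / Real.log X ^ κ) H) ∧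
    -- 2. the failure of the conjecture at every `X` if the Riemann hypothesis is false
    (∀ θ ε : ℝ, 1 / 2 ≤ θ → 0 < ε → ε < 1 → (∃ s : ℂ, riemannZeta s = 0 ∧ θ < s.re) →
      ∀ᶠ X : ℝ in atTop, ∀ H : ℝ, X ^ (2 - 2 * θ + ε) ≤ H → H ≤ X ^ (1 - ε) → H * X ^ ε ≤ W X H) ∧
    -- 3. half planes without zeros
    (∀ θ : ℝ, 1 / 2 ≤ θ →
      ((∀ s : ℂ, θ < s.re → riemannZeta s ≠ 0) ↔
        ∀ δ : ℝ, 0 < δ → ∃ ε : ℝ, 0 < ε ∧ ∃ᶠ X : ℝ in atTop, ∃ H : ℝ,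
          0 < H ∧ H ≤ X ^ (1 - ε) ∧ W X H ≤ H ^ 2 * X ^ (2 * θ - 2 + δ)) ∧
      ((∀ s : ℂ, θ < s.re → riemannZeta s ≠ 0) ↔
        ∀ δ : ℝ, 0 < δ → ∀ᶠ X : ℝ in atTop, ∀ H : ℝ,
          X ^ (1 - δ / 8) ≤ H → H ≤ X → W X H ≤ H ^ 2 * X ^ (2 * θ - 2 + δ))) ∧
    -- 4. the Riemann hypothesis
    (RiemannHypothesis ↔
      ∀ δ : ℝ, 0 < δ → ∃ ε : ℝ, 0 < ε ∧ ∃ᶠ X : ℝ in atTop, ∃ H : ℝ,
        X ^ (1 - δ) ≤ H ∧ H ≤ X ^ (1 - ε) ∧ W X H ≤ H * X ^ δ) := by
  have hall : ∀ θ : ℝ, 1 / 2 ≤ θ →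
      (∀ δ : ℝ, 0 < δ → ∀ᶠ X : ℝ in atTop, ∀ H : ℝ,
          X ^ (1 - δ / 8) ≤ H → H ≤ X → W X H ≤ H ^ 2 * X ^ (2 * θ - 2 + δ)) →
      ∀ δ : ℝ, 0 < δ → ∃ ε : ℝ, 0 < ε ∧ ∃ᶠ X : ℝ in atTop, ∃ H : ℝ,
          0 < H ∧ H ≤ X ^ (1 - ε) ∧ W X H ≤ H ^ 2 * X ^ (2 * θ - 2 + δ) := by
    intro θ _ h δ hδ
    refine ⟨δ / 8, by linarith, ?_⟩
    apply Eventually.frequently
    filter_upwards [h δ hδ, eventually_ge_atTop 1] with X h1 h2
    have hX : 0 < X := by linarith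
    refine ⟨X ^ (1 - δ / 8), Real.rpow_pos_of_pos hX _, le_rfl, h1 _ le_rfl ?_⟩
    conv_rhs => rw [← Real.rpow_one X]
    exact Real.rpow_le_rpow_of_exponent_le h2 (by linarith)
  refine ⟨fun θ κ c ε h1 h2 h3 h4 h5 h6 h7 => low θ κ c ε h1 h2 h3 h4 h5 h6 h7, ?_, ?_, ?_⟩
  · intro θ ε hθ hε hε1 hz
    filter_upwards [lowW θ ε hθ hε hε1 hz, eventually_ge_atTop 1] with X h1 h2 H hH1 hH2
    have hX : 0 < X := by linarith
    have hH0 : 0 < H := (Real.rpow_pos_of_pos hX _).trans_le hH1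
    refine le_trans ?_ (h1 H hH0 hH2)
    have e1 : X ^ ε = X ^ (2 - 2 * θ + ε) * X ^ (2 * θ - 2) := by
      rw [← Real.rpow_add hX]
      congr 1
      ring
    rw [e1, sq]
    calc H * (X ^ (2 - 2 * θ + ε) * X ^ (2 * θ - 2)) ≤ H * (H * X ^ (2 * θ - 2)) := by gcongr
      _ = H * H * X ^ (2 * θ - 2) := by ring
  · intro θ hθ
    refine ⟨⟨fun h => ?_, fun h => one_seq θ hθ h⟩, ⟨fun h δ hδ => up2 θ δ hθ hδ h, fun h => ?_⟩⟩
    · exact hall θ hθ fun δ hδ => up2 θ δ hθ hδ h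
    · exact one_seq θ hθ (hall θ hθ h)
  · rw [Pool.Agent.W190.rh_free]
    constructor
    · intro h δ hδ
      refine ⟨min (δ / 4) (1 / 2), lt_min (by linarith) (by norm_num), ?_⟩
      apply Eventually.frequently
      filter_upwards [up (1 / 2) (δ / 2) le_rfl (by linarith) h, eventually_ge_atTop 1] with X h1 h2
      have hX : 0 < X := by linarith
      have hm := min_le_left (δ / 4) (1 / 2)
      have hm0 : 0 < min (δ / 4) (1 / 2) := lt_min (by linarith) (by norm_num)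
      refine ⟨X ^ (1 - min (δ / 4) (1 / 2)), Real.rpow_le_rpow_of_exponent_le h2 (by linarith), le_rfl, ?_⟩
      refine (h1 _ (Real.rpow_pos_of_pos hX _) ?_).trans ?_
      · conv_rhs => rw [← Real.rpow_one X]
        exact Real.rpow_le_rpow_of_exponent_le h2 (by linarith)
      · rw [← Real.rpow_add hX]
        exact Real.rpow_le_rpow_of_exponent_le h2 (by linarith)
    · intro h
      refine one_seq (1 / 2) le_rfl fun δ hδ => ?_
      obtain ⟨ε, hε, hfr⟩ := h (δ / 2) (by linarith)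
      refine ⟨ε, hε, ?_⟩
      refine (hfr.and_eventually (eventually_ge_atTop 1)).mono ?_
      rintro X ⟨⟨H, hH1, hH2, hH3⟩, h2⟩
      have hX : 0 < X := by linarith
      have hH0 : 0 < H := (Real.rpow_pos_of_pos hX _).trans_le hH1
      refine ⟨H, hH0, hH2, hH3.trans ?_⟩
      have e1 : X ^ (δ / 2) = X ^ (1 - δ / 2) * X ^ (2 * (1 / 2) - 2 + δ) := by
        rw [← Real.rpow_add hX]
        congr 1
        ring
      rw [e1, sq]
      calc H * (X ^ (1 - δ / 2) * X ^ (2 * (1 / 2) - 2 + δ)) ≤ H * (H * X ^ (2 * (1 / 2) - 2 + δ)) := by gcongr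
        _ = H * H * X ^ (2 * (1 / 2) - 2 + δ) := by ring

end Pool.Agent.Results.MP_2a816b_nt.RHAtOneSequence
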