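import Pool.Agent.U507.GM.VC
import Pool.Agent.U507.GM.VD
import Pool.Agent.U507.GM.VE
import Pool.Agent.U507.GM.VH

/-!
# The variance of primes in short intervals: the upper bound suffices

`v(T, α)` is the mean of `|ψ(x; H) - H|²` over `X ≤ x ≤ 2X`, divided by `H log (X / H)`, for `X = T^α` and
`H = X / T`; so `T = X / H`, and the conjecture of the problem says (to first order) that `v(T, α) → 1` as
`T → ∞`, uniformly for `α` in compact subsets of `(1, ∞)`.

Both statements are about an arbitrary filter `l ≤ atTop` in `T`, for example one sequence `T → ∞`, and assume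
nothing else.

1. The upper bound of the conjecture, in the mean over windows of one fixed length `ℓ`, implies the Riemann
hypothesis and the asymptotic formula in the mean over every window.
2. `(v(T, ·) - 1)⁺ → 0` in `L¹(1, b)` for all `b` if and only if `v(T, ·) → 1` in `L¹(1, b)` for all `b`.
3. If `v(T, α) ≤ 1 + o(1)` uniformly for `1 ≤ α ≤ b`, for all `b` (the upper bound of the conjecture), then the
Riemann hypothesis is true and `v(T, ·) → 1` in measure on `(1, b]`, for all `b`.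
-/

set_option autoImplicit false

open MeasureTheory Filter Topology Set

namespace Pool.Agent.Results.MP_2a816b_nt.UpperBoundSuffices

/-- `ψ(x; H)`, the weighted number of prime powers in the interval of length `H` centred at `x`. -/
noncomputable def psi (x H : ℝ) : ℝ :=
  ∑ᶠ n ∈ {n : ℕ | 1 ≤ n ∧ x - H / 2 ≤ n ∧ (n : ℝ) ≤ x + H / 2}, ArithmeticFunction.vonMangoldt n

/-- the mean of `|ψ(x; H) - H|²` over `X ≤ x ≤ 2 X` -/
noncomputable def Var (X H : ℝ) : ℝ := 1 / X * ∫ x in X..(2 * X), |psi x H - H| ^ 2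

/-- the mean square divided by `H log (X / H)`, for `X = T ^ α` and `H = X / T` -/
noncomputable def v (T α : ℝ) : ℝ := Var (T ^ α) (T ^ α / T) / (T ^ α / T * Real.log T)

open Pool.Agent.U507.GM

lemma v_eq : v = vv := rfl

lemma reg {l : Filter ℝ} (hl : l ≤ atTop) :
    ∀ᶠ T in l, Measurable (v T) ∧ (∀ α, 0 ≤ v T α) ∧ LI (v T) := by
  filter_upwards [hl (eventually_ge_atTop 16)] with T hT
  rw [v_eq]
  exact ⟨vv_meas (by linarith), vv_nonneg (by linarith), fun a b ha hb => vv_ii hT ha hb⟩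

lemma ups (hRH : RiemannHypothesis) {l : Filter ℝ} (hl : l ≤ atTop) (c : ℝ) (hc : 0 < c) (hc1 : c ≤ 1) :
    ∃ C : ℝ, ∀ᶠ T in l, IntegrableOn (fun α => Real.exp (-c * α) * v T α) (Ioi 0) ∧
      ∫ α in Ioi 0, Real.exp (-c * α) * v T α ≤ C := by
  obtain ⟨⟨C, T0, -, -, h⟩, -⟩ := lap hRH hc hc1
  refine ⟨C, ?_⟩
  filter_upwards [hl (eventually_ge_atTop T0)] with T hT
  exact h T hT

lemma lows (hRH : RiemannHypothesis) {l : Filter ℝ} (hl : l ≤ atTop) (c : ℝ) (hc : 0 < c) (hc1 : c ≤ 1)
    (ε : ℝ) (hε : 0 < ε) : ∀ᶠ T in l, 1 / c - 1 / 2 - ε ≤ ∫ α in Ioi 0, Real.exp (-c * α) * v T α := by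
  obtain ⟨-, h⟩ := lap hRH hc hc1
  obtain ⟨T0, -, h'⟩ := h ε hε
  filter_upwards [hl (eventually_ge_atTop T0)] with T hT
  exact h' T hT

lemma prs (hRH : RiemannHypothesis) {l : Filter ℝ} (hl : l ≤ atTop) (ε : ℝ) (hε : 0 < ε) :
    ∀ᶠ T in l, ∀ α : ℝ, 0 ≤ α → α ≤ 1 → v T α ≤ α + ε := by
  obtain ⟨T0, -, h⟩ := vv_primes hRH hε
  filter_upwards [hl (eventually_ge_atTop T0)] with T hT α h0 h1
  exact h T α hT h0 h1

lemma mp_one {a b : ℝ} (ha : 1 ≤ a) (hab : a ≤ b) : mp b - mp a = b - a := by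
  rw [mp_sub]
  have : ∫ α in a..b, min α 1 = ∫ α in a..b, (1 : ℝ) := by
    refine intervalIntegral.integral_congr fun α hα => ?_
    rw [uIcc_of_le hab] at hα
    exact min_eq_right (ha.trans hα.1)
  rw [this]
  simp

lemma pos_ii {V : ℝ → ℝ} (hV : LI V) {x y : ℝ} (hx : 0 ≤ x) (hy : 0 ≤ y) :
    IntervalIntegrable (fun α => max (V α - 1) 0) volume x y := by
  have h := (hV x y hx hy).sub (by simp : IntervalIntegrable (fun _ => (1 : ℝ)) volume x y)
  exact ⟨h.1.pos_part, h.2.pos_part⟩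

theorem core (l : Filter ℝ) [NeBot l] (hl : l ≤ atTop) :
    -- 1. upper bounds for the means over windows of one length `ℓ`
    (∀ ℓ : ℝ, 0 < ℓ →
      (((∀ b : ℝ, 1 < b → b ≤ ℓ → ∀ ε : ℝ, 0 < ε → ∀ᶠ T in l, ∫ α in (1 : ℝ)..b, v T α ≤ b - 1 + ε) ∧
        (∀ a : ℝ, 0 < a → 1 < a + ℓ → ∀ ε : ℝ, 0 < ε → ∀ᶠ T in l,
          ∫ α in a..(a + ℓ), v T α ≤ (∫ α in a..(a + ℓ), min α 1) + ε)) ↔
      (RiemannHypothesis ∧ ∀ a b : ℝ, 0 ≤ a → a ≤ b →
        Tendsto (fun T => ∫ α in a..b, v T α) l (𝓝 (∫ α in a..b, min α 1))))) ∧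
    -- 2. the positive part
    ((∀ b : ℝ, 1 < b → Tendsto (fun T => ∫ α in (1 : ℝ)..b, max (v T α - 1) 0) l (𝓝 0)) ↔
      (RiemannHypothesis ∧ ∀ b : ℝ, 1 < b → Tendsto (fun T => ∫ α in (1 : ℝ)..b, |v T α - 1|) l (𝓝 0))) := by
  have hreg := reg hl
  refine ⟨fun ℓ hℓ => ⟨fun h => ?_, fun h => ?_⟩, ⟨fun h => ?_, fun h => ?_⟩⟩
  · -- 1, `→`
    obtain ⟨h1, h2⟩ := h
    have hRH : RiemannHypothesis := by
      refine rh_of_up hl hℓ fun a ha => ⟨(∫ α in a..(a + ℓ), min α 1) + 1, ?_⟩
      exact h2 a (by linarith) (by linarith) 1 one_pos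
    have hini : ∀ b : ℝ, 1 < b → b ≤ ℓ → ∀ ε : ℝ, 0 < ε → ∀ᶠ T in l, Ph (v T) b ≤ mp b + ε := by
      intro b hb hbℓ ε hε
      filter_upwards [hreg, h1 b hb hbℓ (ε / 2) (by linarith), prs hRH hl (ε / 2) (by linarith)] with T hT k1 k2
      have k3 := Ph_sub hT.2.2 zero_le_one (by linarith : 0 ≤ b)
      have k4 := mp_one le_rfl hb.le
      have k5 : Ph (v T) 1 ≤ mp 1 + ε / 2 := by
        have k6 : ∫ α in (0 : ℝ)..1, v T α ≤ ∫ α in (0 : ℝ)..1, (min α 1 + ε / 2) := by
          refine intervalIntegral.integral_mono_on zero_le_one (hT.2.2 _ _ le_rfl zero_le_one)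
            ((min_cont.intervalIntegrable _ _).add (by simp)) fun α hα => ?_
          rw [min_eq_left hα.2]
          exact k2 α hα.1 hα.2
        rw [intervalIntegral.integral_add (min_cont.intervalIntegrable _ _) (by simp),
          intervalIntegral.integral_const, smul_eq_mul] at k6
        unfold Ph mp
        linarith
      linarith
    have hlim : ∀ b : ℝ, 0 ≤ b → Tendsto (fun T => Ph (v T) b) l (𝓝 (mp b)) := fun b hb =>
      rigid hℓ hini hreg (ups hRH hl) (lows hRH hl) (prs hRH hl) h2 hb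
    refine ⟨hRH, fun a b ha hab => ?_⟩
    have k1 := (hlim b (ha.trans hab)).sub (hlim a ha)
    rw [mp_sub] at k1
    refine k1.congr' ?_
    filter_upwards [hreg] with T hT
    exact Ph_sub hT.2.2 ha (ha.trans hab)
  · -- 1, `←`
    obtain ⟨-, h2⟩ := h
    constructor
    · intro b hb _ ε hε
      have k1 := h2 1 b zero_le_one hb.le
      rw [← mp_sub, mp_one le_rfl hb.le] at k1
      filter_upwards [k1.eventually (gt_mem_nhds (show b - 1 < b - 1 + ε by linarith))] with T hT
      exact hT.le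
    · intro a ha _ ε hε
      have k1 := h2 a (a + ℓ) ha.le (by linarith)
      filter_upwards [k1.eventually (gt_mem_nhds (show (∫ α in a..(a + ℓ), min α 1) <
        (∫ α in a..(a + ℓ), min α 1) + ε by linarith))] with T hT
      exact hT.le
  · -- 2, `→`
    -- the mean over a window to the right of `1`
    have key : ∀ a b : ℝ, 1 ≤ a → a ≤ b → ∀ ε : ℝ, 0 < ε → ∀ᶠ T in l, ∫ α in a..b, v T α ≤ b - a + ε := by
      intro a b ha hab ε hε
      have hb1 : 1 < b + 1 := by linarith
      filter_upwards [hreg, (h (b + 1) hb1).eventually (gt_mem_nhds hε)] with T hT k1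
      obtain ⟨-, h0, hLI⟩ := hT
      have i1 : ∀ x y : ℝ, 0 ≤ x → 0 ≤ y → IntervalIntegrable (fun α => max (v T α - 1) 0) volume x y :=
        fun x y hx hy => pos_ii hLI hx hy
      have k2 : ∫ α in a..b, v T α ≤ ∫ α in a..b, (1 + max (v T α - 1) 0) := by
        refine intervalIntegral.integral_mono_on hab (hLI _ _ (by linarith) (by linarith))
          ((by simp : IntervalIntegrable (fun _ => (1 : ℝ)) volume a b).add (i1 _ _ (by linarith) (by linarith)))
          fun α _ => ?_
        linarith [le_max_left (v T α - 1) 0]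
      rw [intervalIntegral.integral_add (by simp) (i1 _ _ (by linarith) (by linarith)),
        intervalIntegral.integral_const, smul_eq_mul, mul_one] at k2
      have k3 : ∫ α in a..b, max (v T α - 1) 0 ≤ ∫ α in (1 : ℝ)..(b + 1), max (v T α - 1) 0 := by
        apply intervalIntegral.integral_mono_interval ha hab (by linarith)
          (Filter.Eventually.of_forall fun α => le_max_right _ _) (i1 _ _ zero_le_one (by linarith))
      linarith
    have hRH : RiemannHypothesis := by
      refine rh_of_up hl one_pos fun a ha => ⟨a + 1 - a + 1, ?_⟩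
      exact key a (a + 1) ha (by linarith) 1 one_pos
    have hwin : ∀ a : ℝ, 0 < a → 1 < a + 1 → ∀ ε : ℝ, 0 < ε → ∀ᶠ T in l,
        ∫ α in a..(a + 1), v T α ≤ (∫ α in a..(a + 1), min α 1) + ε := by
      intro a ha _ ε hε
      by_cases ha1 : 1 ≤ a
      · filter_upwards [key a (a + 1) ha1 (by linarith) ε hε] with T hT
        rw [← mp_sub, mp_one ha1 (by linarith)]
        exact hT
      · push Not at ha1
        filter_upwards [hreg, key 1 (a + 1) le_rfl (by linarith) (ε / 2) (by linarith),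
          prs hRH hl (ε / 2) (by linarith)] with T hT k1 k2
        obtain ⟨-, h0, hLI⟩ := hT
        have e1 := intervalIntegral.integral_add_adjacent_intervals (hLI a 1 ha.le zero_le_one)
          (hLI 1 (a + 1) zero_le_one (by linarith))
        have e2 := intervalIntegral.integral_add_adjacent_intervals (a := a) (b := 1) (c := a + 1) (μ := volume)
          (min_cont.intervalIntegrable _ _) (min_cont.intervalIntegrable _ _)
        have e3 : ∫ α in (1 : ℝ)..(a + 1), min α 1 = a := by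
          rw [← mp_sub, mp_one le_rfl (by linarith)]
          ring
        have k6 : ∫ α in a..1, v T α ≤ ∫ α in a..1, (min α 1 + ε / 2) := by
          refine intervalIntegral.integral_mono_on ha1.le (hLI _ _ ha.le zero_le_one)
            ((min_cont.intervalIntegrable _ _).add (by simp)) fun α hα => ?_
          rw [min_eq_left hα.2]
          exact k2 α (ha.le.trans hα.1) hα.2
        rw [intervalIntegral.integral_add (min_cont.intervalIntegrable _ _) (by simp),
          intervalIntegral.integral_const, smul_eq_mul] at k6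
        have k7 : (1 - a) * (ε / 2) ≤ ε / 2 := by nlinarith
        rw [← e1, ← e2, e3]
        linarith
    have hini : ∀ b : ℝ, 1 < b → b ≤ 1 → ∀ ε : ℝ, 0 < ε → ∀ᶠ T in l, Ph (v T) b ≤ mp b + ε := by
      intro b hb hb1
      linarith
    have hlim : ∀ b : ℝ, 0 ≤ b → Tendsto (fun T => Ph (v T) b) l (𝓝 (mp b)) := fun b hb =>
      rigid one_pos hini hreg (ups hRH hl) (lows hRH hl) (prs hRH hl) hwin hb
    refine ⟨hRH, fun b hb => ?_⟩
    have k1 := (hlim b (by linarith)).sub (hlim 1 zero_le_one)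
    rw [mp_one le_rfl hb.le] at k1
    have k2 := ((h b hb).const_mul 2).sub (k1.sub_const (b - 1))
    have e0 : 2 * 0 - (b - 1 - (b - 1)) = (0 : ℝ) := by ring
    rw [e0] at k2
    refine k2.congr' ?_
    filter_upwards [hreg] with T hT
    obtain ⟨-, h0, hLI⟩ := hT
    have i0 := hLI 1 b zero_le_one (by linarith)
    have i1 : IntervalIntegrable (fun α => max (v T α - 1) 0) volume 1 b := pos_ii hLI zero_le_one (by linarith)
    have i2 : IntervalIntegrable (fun α => v T α - 1) volume 1 b :=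
      i0.sub (by simp : IntervalIntegrable (fun _ => (1 : ℝ)) volume 1 b)
    have e1 := Ph_sub hLI zero_le_one (by linarith : 0 ≤ b)
    have e2 : ∫ α in (1 : ℝ)..b, |v T α - 1| = ∫ α in (1 : ℝ)..b, (2 * max (v T α - 1) 0 - (v T α - 1)) := by
      refine intervalIntegral.integral_congr fun α _ => ?_
      rcases le_total 0 (v T α - 1) with h5 | h5
      · rw [abs_of_nonneg h5, max_eq_left h5]
        ring
      · rw [abs_of_nonpos h5, max_eq_right h5]
        ring
    rw [e1, e2, intervalIntegral.integral_sub (i1.const_mul 2) i2, intervalIntegral.integral_const_mul,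
      intervalIntegral.integral_sub i0 (by simp)]
    simp
  · -- 2, `←`
    obtain ⟨-, h2⟩ := h
    intro b hb
    refine tendsto_of_tendsto_of_tendsto_of_le_of_le' tendsto_const_nhds (h2 b hb) ?_ ?_
    · exact Filter.Eventually.of_forall fun T => intervalIntegral.integral_nonneg hb.le fun α _ => le_max_right _ _
    · filter_upwards [hreg] with T hT
      obtain ⟨-, h0, hLI⟩ := hT
      have i0 := hLI 1 b zero_le_one (by linarith)
      have i2 : IntervalIntegrable (fun α => v T α - 1) volume 1 b :=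
        i0.sub (by simp : IntervalIntegrable (fun _ => (1 : ℝ)) volume 1 b)
      have i1 : IntervalIntegrable (fun α => max (v T α - 1) 0) volume 1 b := pos_ii hLI zero_le_one (by linarith)
      refine intervalIntegral.integral_mono_on hb.le i1 i2.abs fun α _ => ?_
      exact max_le (le_abs_self _) (abs_nonneg _)

theorem result (l : Filter ℝ) [NeBot l] (hl : l ≤ atTop) :
    -- 1. upper bounds for the means over windows of one length `ℓ`
    (∀ ℓ : ℝ, 0 < ℓ →
      (((∀ b : ℝ, 1 < b → b ≤ ℓ → ∀ ε : ℝ, 0 < ε → ∀ᶠ T in l, ∫ α in (1 : ℝ)..b, v T α ≤ b - 1 + ε) ∧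
        (∀ a : ℝ, 0 < a → 1 < a + ℓ → ∀ ε : ℝ, 0 < ε → ∀ᶠ T in l,
          ∫ α in a..(a + ℓ), v T α ≤ (∫ α in a..(a + ℓ), min α 1) + ε)) ↔
      (RiemannHypothesis ∧ ∀ a b : ℝ, 0 ≤ a → a ≤ b →
        Tendsto (fun T => ∫ α in a..b, v T α) l (𝓝 (∫ α in a..b, min α 1))))) ∧
    -- 2. the positive part
    ((∀ b : ℝ, 1 < b → Tendsto (fun T => ∫ α in (1 : ℝ)..b, max (v T α - 1) 0) l (𝓝 0)) ↔
      (RiemannHypothesis ∧ ∀ b : ℝ, 1 < b → Tendsto (fun T => ∫ α in (1 : ℝ)..b, |v T α - 1|) l (𝓝 0))) ∧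
    -- 3. the upper bound for every `α`
    ((∀ b ε : ℝ, 1 < b → 0 < ε → ∀ᶠ T in l, ∀ α : ℝ, 1 ≤ α → α ≤ b → v T α ≤ 1 + ε) →
      RiemannHypothesis ∧ ∀ b ε : ℝ, 1 < b → 0 < ε →
        Tendsto (fun T => volume.real {α : ℝ | α ∈ Ioc 1 b ∧ ε ≤ |v T α - 1|}) l (𝓝 0)) := by
  obtain ⟨c1, c2⟩ := core l hl
  refine ⟨c1, c2, fun h => ?_⟩
  have hreg := reg hl
  have hp : ∀ b : ℝ, 1 < b → Tendsto (fun T => ∫ α in (1 : ℝ)..b, max (v T α - 1) 0) l (𝓝 0) := by
    intro b hb
    rw [Metric.tendsto_nhds]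
    intro ε hε
    have hbε : 0 < ε / (2 * b) := by positivity
    filter_upwards [hreg, h b (ε / (2 * b)) hb hbε] with T hT k1
    obtain ⟨-, h0, hLI⟩ := hT
    have k2 : ∫ α in (1 : ℝ)..b, max (v T α - 1) 0 ≤ ∫ α in (1 : ℝ)..b, ε / (2 * b) :=
      intervalIntegral.integral_mono_on hb.le (pos_ii hLI zero_le_one (by linarith)) (by simp)
        fun α hα => max_le (by linarith [k1 α hα.1 hα.2]) hbε.le
    have k3 : 0 ≤ ∫ α in (1 : ℝ)..b, max (v T α - 1) 0 :=
      intervalIntegral.integral_nonneg hb.le fun α _ => le_max_right _ _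
    rw [intervalIntegral.integral_const, smul_eq_mul] at k2
    rw [Real.dist_eq, sub_zero, abs_of_nonneg k3]
    have k4 : (b - 1) * (ε / (2 * b)) ≤ b * (ε / (2 * b)) := by gcongr; linarith
    have k5 : b * (ε / (2 * b)) = ε / 2 := by field_simp
    linarith
  obtain ⟨hRH, h1⟩ := c2.1 hp
  refine ⟨hRH, fun b ε hb hε => ?_⟩
  have k0 := (h1 b hb).const_mul ε⁻¹
  rw [mul_zero] at k0
  refine tendsto_of_tendsto_of_tendsto_of_le_of_le' tendsto_const_nhds k0
    (Filter.Eventually.of_forall fun T => measureReal_nonneg) ?_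
  filter_upwards [hreg] with T hT
  obtain ⟨hm, h0, hLI⟩ := hT
  have i0 := hLI 1 b zero_le_one (by linarith)
  have i2 : IntervalIntegrable (fun α => |v T α - 1|) volume 1 b :=
    (i0.sub (by simp : IntervalIntegrable (fun _ => (1 : ℝ)) volume 1 b)).abs
  rw [intervalIntegrable_iff_integrableOn_Ioc_of_le hb.le] at i2
  have k1 := mul_meas_ge_le_integral_of_nonneg (μ := volume.restrict (Ioc (1 : ℝ) b))
    (f := fun α => |v T α - 1|) (Filter.Eventually.of_forall fun α => abs_nonneg _) i2 ε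
  rw [← intervalIntegral.integral_of_le hb.le] at k1
  have e1 : (volume.restrict (Ioc (1 : ℝ) b)).real {α | ε ≤ |v T α - 1|} =
      volume.real {α : ℝ | α ∈ Ioc 1 b ∧ ε ≤ |v T α - 1|} := by
    have hms : MeasurableSet {α | ε ≤ |v T α - 1|} :=
      measurableSet_le measurable_const (hm.sub measurable_const).abs
    rw [measureReal_def, measureReal_def, Measure.restrict_apply hms]
    congr 2
    ext α
    simp only [mem_inter_iff, mem_ofPred_eq]
    exact and_comm
  rw [e1] at k1
  rw [← div_eq_inv_mul, le_div_iff₀ hε]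
  linarith

end Pool.Agent.Results.MP_2a816b_nt.UpperBoundSuffices
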